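import Mathlib
import Pool.Agent.RSD.Defs

set_option autoImplicit false

/-! # [RSD-C0] Gram matrices and vectors -/

open Real

namespace Pool.Agent.RSD

/-- the quadratic form of the Gram matrix -/
def c0_form (f : P5) (g y0 y1 y2 y3 : ℝ) : ℝ :=
  y0 ^ 2 + y1 ^ 2 + y2 ^ 2 + y3 ^ 2 + 2 * g * y0 * y1 + 2 * f.a * y0 * y2 + 2 * f.b * y0 * y3
    + 2 * f.c * y1 * y2 + 2 * f.d * y1 * y3 + 2 * f.e * y2 * y3

theorem c0_inner (f : P5) (g : ℝ) (n : Fin 4 → E4) (h : IsGram f g n) :
    (∀ i, inner ℝ (n i) (n i) = (1 : ℝ)) ∧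
    inner ℝ (n 1) (n 0) = g ∧ inner ℝ (n 2) (n 0) = f.a ∧ inner ℝ (n 3) (n 0) = f.b ∧
    inner ℝ (n 2) (n 1) = f.c ∧ inner ℝ (n 3) (n 1) = f.d ∧ inner ℝ (n 3) (n 2) = f.e := by
  refine ⟨fun i => ?_, ?_, ?_, ?_, ?_, ?_, ?_⟩
  · rw [real_inner_self_eq_norm_sq, h.unit i]; norm_num
  · rw [real_inner_comm]; exact h.h01
  · rw [real_inner_comm]; exact h.h02
  · rw [real_inner_comm]; exact h.h03
  · rw [real_inner_comm]; exact h.h12
  · rw [real_inner_comm]; exact h.h13
  · rw [real_inner_comm]; exact h.h23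

theorem c0_norm_sq (f : P5) (g : ℝ) (n : Fin 4 → E4) (h : IsGram f g n) (y : Fin 4 → ℝ) :
    ‖∑ i, y i • n i‖ ^ 2 = c0_form f g (y 0) (y 1) (y 2) (y 3) := by
  obtain ⟨h0, k01, k02, k03, k12, k13, k23⟩ := c0_inner f g n h
  rw [← real_inner_self_eq_norm_sq]
  simp only [Fin.sum_univ_four, inner_add_left, inner_add_right, real_inner_smul_left,
    real_inner_smul_right, h0, h.h01, h.h02, h.h03, h.h12, h.h13, h.h23, k01, k02, k03, k12, k13,
    k23, c0_form]
  ring

theorem c0_form_pos (f : P5) (g : ℝ) (n : Fin 4 → E4) (h : IsGram f g n)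
    (hn : LinearIndependent ℝ n) (y0 y1 y2 y3 : ℝ)
    (hy : y0 ≠ 0 ∨ y1 ≠ 0 ∨ y2 ≠ 0 ∨ y3 ≠ 0) : 0 < c0_form f g y0 y1 y2 y3 := by
  have h1 := c0_norm_sq f g n h ![y0, y1, y2, y3]
  have h2 : (∑ i, (![y0, y1, y2, y3] : Fin 4 → ℝ) i • n i) ≠ 0 := by
    intro h0
    have h3 := Fintype.linearIndependent_iff.mp hn ![y0, y1, y2, y3] h0
    have e0 : y0 = 0 := h3 0
    have e1 : y1 = 0 := h3 1
    have e2 : y2 = 0 := h3 2
    have e3 : y3 = 0 := h3 3
    rcases hy with hy | hy | hy | hy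
    · exact hy e0
    · exact hy e1
    · exact hy e2
    · exact hy e3
  have h4 : (0 : ℝ) < ‖∑ i, (![y0, y1, y2, y3] : Fin 4 → ℝ) i • n i‖ ^ 2 := by
    have := norm_pos_iff.mpr h2
    positivity
  rw [h1] at h4
  exact h4

/-- **[RSD-C0a]** Positive definite data come from vectors: explicitly
`n₂ = (1,0,0,0)`, `n₃ = (e, √(1-e²), 0, 0)`, `n₀ = (a, (b - a e)/√(1-e²), √(q22/(1-e²)), 0)`,
`n₁ = (c, (d - c e)/√(1-e²), -q12/√((1-e²) q22), √(D/q22))`. -/
theorem exists_gram (f : P5) (g : ℝ) (h : f.PD g) :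
    ∃ n : Fin 4 → E4, IsGram f g n ∧ LinearIndependent ℝ n := by
  obtain ⟨he, hq, hD⟩ := h
  obtain ⟨a, b, c, d, e⟩ := f
  simp only [P5.D] at he hq hD
  have hκ : 0 < 1 - e ^ 2 := by linarith
  set s : ℝ := √(1 - e ^ 2) with hs
  set r : ℝ := √(q22 a b e) with hr
  set w : ℝ := √(qD a b c d e g) with hw
  have hs0 : 0 < s := Real.sqrt_pos.mpr hκ
  have hr0 : 0 < r := Real.sqrt_pos.mpr hq
  have hw0 : 0 < w := Real.sqrt_pos.mpr hD
  have hss : s ^ 2 = 1 - e ^ 2 := Real.sq_sqrt hκ.le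
  have hrr : r ^ 2 = q22 a b e := Real.sq_sqrt hq.le
  have hww : w ^ 2 = qD a b c d e g := Real.sq_sqrt hD.le
  set p : ℝ := q12 a b c d e g with hp
  have hid : q11 c d e * q22 a b e - p ^ 2 = (1 - e ^ 2) * qD a b c d e g := by
    rw [hp]; unfold q11 q22 q12 qD; ring
  let n : Fin 4 → E4 := ![!₂[a, (b - a * e) / s, r / s, 0],
    !₂[c, (d - c * e) / s, -p / (s * r), w / r], !₂[1, 0, 0, 0], !₂[e, s, 0, 0]]
  have hself : ∀ v : E4, inner ℝ v v = (1 : ℝ) → ‖v‖ = 1 := by
    intro v hv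
    rw [real_inner_self_eq_norm_sq] at hv
    have h0 := norm_nonneg v
    nlinarith
  refine ⟨n, ⟨?_, ?_, ?_, ?_, ?_, ?_, ?_⟩, ?_⟩
  · intro i
    apply hself
    fin_cases i
    · simp only [n, PiLp.inner_apply, Fin.sum_univ_four, Matrix.cons_val, RCLike.inner_apply,
        conj_trivial, Fin.zero_eta, Fin.isValue]
      have : a * a + (b - a * e) / s * ((b - a * e) / s) + r / s * (r / s) + 0 * 0
          = (a ^ 2 * s ^ 2 + (b - a * e) ^ 2 + r ^ 2) / s ^ 2 := by field_simp; ring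
      rw [this, hrr, hss]
      rw [div_eq_one_iff_eq hκ.ne']
      unfold q22; ring
    · simp only [n, PiLp.inner_apply, Fin.sum_univ_four, Matrix.cons_val, RCLike.inner_apply,
        conj_trivial, Fin.mk_one, Fin.isValue]
      have : c * c + (d - c * e) / s * ((d - c * e) / s) + -p / (s * r) * (-p / (s * r))
          + w / r * (w / r) = ((c ^ 2 * s ^ 2 + (d - c * e) ^ 2) * r ^ 2 + p ^ 2 + w ^ 2 * s ^ 2)
            / (s ^ 2 * r ^ 2) := by field_simp
      rw [this, div_eq_one_iff_eq (by positivity), hrr, hss, hww]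
      have h2 : p ^ 2 = q11 c d e * q22 a b e - (1 - e ^ 2) * qD a b c d e g := by linarith
      rw [h2]
      unfold q11; ring
    · simp only [n, PiLp.inner_apply, Fin.sum_univ_four, Matrix.cons_val, RCLike.inner_apply,
        conj_trivial, Fin.reduceFinMk, Fin.isValue]
      norm_num
    · simp only [n, PiLp.inner_apply, Fin.sum_univ_four, Matrix.cons_val, RCLike.inner_apply,
        conj_trivial, Fin.reduceFinMk, Fin.isValue]
      nlinarith [hss]
  · simp only [n, PiLp.inner_apply, Fin.sum_univ_four, Matrix.cons_val, RCLike.inner_apply,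
        conj_trivial, Fin.isValue]
    have : c * a + (d - c * e) / s * ((b - a * e) / s) + -p / (s * r) * (r / s) + w / r * 0
        = (a * c * s ^ 2 + (b - a * e) * (d - c * e) - p) / s ^ 2 := by field_simp; ring
    rw [this, hss, div_eq_iff hκ.ne', hp]
    unfold q12; ring
  · simp only [n, PiLp.inner_apply, Fin.sum_univ_four, Matrix.cons_val, RCLike.inner_apply,
        conj_trivial, Fin.isValue]
    ring
  · simp only [n, PiLp.inner_apply, Fin.sum_univ_four, Matrix.cons_val, RCLike.inner_apply,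
        conj_trivial, Fin.isValue]
    field_simp; ring
  · simp only [n, PiLp.inner_apply, Fin.sum_univ_four, Matrix.cons_val, RCLike.inner_apply,
        conj_trivial, Fin.isValue]
    ring
  · simp only [n, PiLp.inner_apply, Fin.sum_univ_four, Matrix.cons_val, RCLike.inner_apply,
        conj_trivial, Fin.isValue]
    field_simp; ring
  · simp only [n, PiLp.inner_apply, Fin.sum_univ_four, Matrix.cons_val, RCLike.inner_apply,
        conj_trivial, Fin.isValue]
    ring
  · rw [Fintype.linearIndependent_iff]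
    intro y hy
    have hc : ∀ k : Fin 4, (∑ i, y i • n i) k = 0 := by
      intro k; rw [hy]; rfl
    have h3 := hc 3
    have h2 := hc 2
    have h1 := hc 1
    have h0 := hc 0
    simp only [n, Fin.sum_univ_four, PiLp.add_apply, PiLp.smul_apply, smul_eq_mul,
      Matrix.cons_val, Fin.isValue] at h0 h1 h2 h3
    have y1 : y 1 = 0 := by
      have : y 1 * (w / r) = 0 := by linarith
      rcases mul_eq_zero.mp this with h | h
      · exact h
      · exact absurd h (by positivity)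
    have y0 : y 0 = 0 := by
      rw [y1] at h2
      have : y 0 * (r / s) = 0 := by linarith
      rcases mul_eq_zero.mp this with h | h
      · exact h
      · exact absurd h (by positivity)
    have y3 : y 3 = 0 := by
      rw [y1, y0] at h1
      have : y 3 * s = 0 := by linarith
      rcases mul_eq_zero.mp this with h | h
      · exact h
      · exact absurd h (by positivity)
    have y2 : y 2 = 0 := by
      rw [y1, y0, y3] at h0
      linarith
    intro i
    fin_cases i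
    · exact y0
    · exact y1
    · exact y2
    · exact y3

/-- **[RSD-C0b]** the converse.  For real `y ≠ 0`: `0 < ‖∑ y i • n i‖² = yᵀ G y`.
`y = (0,0,-e,1)`: `1 - e² > 0`.  `y = (1-e², 0, be-a, ae-b)`: `(1-e²) q22 > 0`.
`y = (0, 1-e², de-c, ce-d)`: `(1-e²) q11 > 0`.  `y = (q11, q12, q13, q14)`: `q11 D > 0`. -/
theorem pd_of_gram (f : P5) (g : ℝ) (n : Fin 4 → E4) (h : IsGram f g n)
    (hn : LinearIndependent ℝ n) : f.PD g := by
  have hpos := c0_form_pos f g n h hn
  have h1 : 0 < 1 - f.e ^ 2 := by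
    have := hpos 0 0 (-f.e) 1 (Or.inr (Or.inr (Or.inr one_ne_zero)))
    unfold c0_form at this
    nlinarith
  have h22 : 0 < q22 f.a f.b f.e := by
    have := hpos (1 - f.e ^ 2) 0 (f.b * f.e - f.a) (f.a * f.e - f.b) (Or.inl h1.ne')
    have e1 : c0_form f g (1 - f.e ^ 2) 0 (f.b * f.e - f.a) (f.a * f.e - f.b)
        = (1 - f.e ^ 2) * q22 f.a f.b f.e := by unfold c0_form q22; ring
    rw [e1] at this
    exact (mul_pos_iff_of_pos_left h1).mp this
  have h11 : 0 < q11 f.c f.d f.e := by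
    have := hpos 0 (1 - f.e ^ 2) (f.d * f.e - f.c) (f.c * f.e - f.d) (Or.inr (Or.inl h1.ne'))
    have e1 : c0_form f g 0 (1 - f.e ^ 2) (f.d * f.e - f.c) (f.c * f.e - f.d)
        = (1 - f.e ^ 2) * q11 f.c f.d f.e := by unfold c0_form q11; ring
    rw [e1] at this
    exact (mul_pos_iff_of_pos_left h1).mp this
  have hD : 0 < f.D g := by
    have := hpos (q11 f.c f.d f.e) (q12 f.a f.b f.c f.d f.e g) (q13 f.a f.b f.c f.d f.e g)
      (q14 f.a f.b f.c f.d f.e g) (Or.inl h11.ne')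
    have e1 : c0_form f g (q11 f.c f.d f.e) (q12 f.a f.b f.c f.d f.e g)
        (q13 f.a f.b f.c f.d f.e g) (q14 f.a f.b f.c f.d f.e g)
        = q11 f.c f.d f.e * f.D g := by
      unfold c0_form P5.D q11 q12 q13 q14 qD; ring
    rw [e1] at this
    exact (mul_pos_iff_of_pos_left h11).mp this
  exact ⟨by linarith, h22, hD⟩

end Pool.Agent.RSD
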