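import Mathlib
import Pool.Agent.RSD.Defs

set_option autoImplicit false

/-! # [RSD-C1] Gaussian measure of a cone = volume fraction -/

open Real MeasureTheory

namespace Pool.Agent.RSD


/-- the scaling factor -/
noncomputable def c1_rho (t : ℝ) : ENNReal := if t ≤ 1 then ENNReal.ofReal ((√(-2 * Real.log t)) ^ 4) else 0

open scoped Pointwise in
theorem c1_scale (K : Set E4) (hc : ∀ x ∈ K, ∀ r : ℝ, 0 < r → r • x ∈ K) (r : ℝ) (hr : 0 ≤ r) :
    volume {x : E4 | ‖x‖ ≤ r ∧ x ∈ K} = ENNReal.ofReal (r ^ 4) * volume {x : E4 | ‖x‖ ≤ 1 ∧ x ∈ K} := by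
  rcases hr.eq_or_lt with rfl | hr
  · have h1 : {x : E4 | ‖x‖ ≤ 0 ∧ x ∈ K} ⊆ {0} := by
      rintro x ⟨hx, -⟩
      exact norm_le_zero_iff.1 hx
    have h2 : volume ({0} : Set E4) = 0 := measure_singleton 0
    rw [measure_mono_null h1 h2]
    simp
  · have h1 : {x : E4 | ‖x‖ ≤ r ∧ x ∈ K} = r • {x : E4 | ‖x‖ ≤ 1 ∧ x ∈ K} := by
      ext x
      rw [Set.mem_smul_set_iff_inv_smul_mem₀ hr.ne']
      simp only [Set.mem_ofPred_eq]
      rw [norm_smul, norm_inv, Real.norm_eq_abs, abs_of_pos hr]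
      constructor
      · rintro ⟨h2, h3⟩
        refine ⟨?_, hc x h3 _ (inv_pos.2 hr)⟩
        rw [inv_mul_le_iff₀ hr, mul_one]
        exact h2
      · rintro ⟨h2, h3⟩
        rw [inv_mul_le_iff₀ hr, mul_one] at h2
        refine ⟨h2, ?_⟩
        have h4 := hc _ h3 r hr
        rwa [smul_smul, mul_inv_cancel₀ hr.ne', one_smul] at h4
    rw [h1, Measure.addHaar_smul, finrank_euclideanSpace_fin, abs_of_nonneg (by positivity)]

theorem c1_level (K : Set E4) (hc : ∀ x ∈ K, ∀ r : ℝ, 0 < r → r • x ∈ K) (t : ℝ) (ht : 0 < t) :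
    volume {x : E4 | x ∈ K ∧ t ≤ Real.exp (-(‖x‖ ^ 2 / 2))} = c1_rho t * volume {x : E4 | ‖x‖ ≤ 1 ∧ x ∈ K} := by
  unfold c1_rho
  split_ifs with h
  · rw [← c1_scale K hc _ (Real.sqrt_nonneg _)]
    congr 1
    ext x
    simp only [Set.mem_ofPred_eq]
    have hl : 0 ≤ -2 * Real.log t := by
      have := Real.log_nonpos ht.le h
      linarith
    have h1 : t ≤ Real.exp (-(‖x‖ ^ 2 / 2)) ↔ ‖x‖ ≤ √(-2 * Real.log t) := by
      rw [← Real.log_le_iff_le_exp ht, Real.le_sqrt (norm_nonneg x) hl]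
      constructor <;> intro h2 <;> linarith
    rw [h1, and_comm]
  · push Not at h
    have h1 : {x : E4 | x ∈ K ∧ t ≤ Real.exp (-(‖x‖ ^ 2 / 2))} = ∅ := by
      ext x
      simp only [Set.mem_ofPred_eq, Set.mem_empty_iff_false, iff_false, not_and]
      intro _ h2
      have h3 : Real.exp (-(‖x‖ ^ 2 / 2)) ≤ 1 := Real.exp_le_one_iff.2 (by
        have := sq_nonneg ‖x‖
        linarith)
      linarith
    rw [h1]
    simp

theorem c1_lintegral (K : Set E4) (hK : MeasurableSet K) (hc : ∀ x ∈ K, ∀ r : ℝ, 0 < r → r • x ∈ K) :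
    ∫⁻ x in K, ENNReal.ofReal (Real.exp (-(‖x‖ ^ 2 / 2))) =
      (∫⁻ t in Set.Ioi (0 : ℝ), c1_rho t) * volume {x : E4 | ‖x‖ ≤ 1 ∧ x ∈ K} := by
  have hm : Continuous (fun x : E4 => Real.exp (-(‖x‖ ^ 2 / 2))) := by fun_prop
  rw [lintegral_eq_lintegral_meas_le (volume.restrict K) (Filter.Eventually.of_forall fun x => (Real.exp_pos _).le)
    hm.measurable.aemeasurable]
  have hfin : volume {x : E4 | ‖x‖ ≤ 1 ∧ x ∈ K} ≠ ⊤ := by
    have h1 : {x : E4 | ‖x‖ ≤ 1 ∧ x ∈ K} ⊆ Metric.closedBall 0 1 := by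
      rintro x ⟨hx, -⟩
      simpa using hx
    exact ne_top_of_le_ne_top (measure_closedBall_lt_top).ne (measure_mono h1)
  rw [← lintegral_mul_const' _ _ hfin]
  refine setLIntegral_congr_fun measurableSet_Ioi fun t ht => ?_
  rw [← c1_level K hc t ht, Measure.restrict_apply (measurableSet_le measurable_const hm.measurable)]
  congr 1
  ext x
  simp only [Set.mem_inter_iff, Set.mem_ofPred_eq]
  exact and_comm

theorem c1_real (K : Set E4) (hK : MeasurableSet K) (hc : ∀ x ∈ K, ∀ r : ℝ, 0 < r → r • x ∈ K) :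
    ∫ x in K, Real.exp (-(‖x‖ ^ 2 / 2)) =
      (∫⁻ t in Set.Ioi (0 : ℝ), c1_rho t).toReal * (volume {x : E4 | ‖x‖ ≤ 1 ∧ x ∈ K}).toReal := by
  have hm : Continuous (fun x : E4 => Real.exp (-(‖x‖ ^ 2 / 2))) := by fun_prop
  rw [integral_eq_lintegral_of_nonneg_ae (Filter.Eventually.of_forall fun x => (Real.exp_pos _).le)
    hm.aestronglyMeasurable, c1_lintegral K hK hc, ENNReal.toReal_mul]

/-- **[RSD-C1]** For a measurable cone `K` the Gaussian integral over `K` is `4π²` times the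
fraction of the unit ball.

Proof. Layer cake: `∫_K exp(-‖x‖²/2) = ∫_{t ∈ (0,1)} vol {x ∈ K : exp(-‖x‖²/2) > t} dt`
(`Integrable.integral_eq_integral_meas_lt` or the `lintegral` version
`lintegral_eq_lintegral_meas_lt`); for `0 < t < 1` the set is (up to the sphere) `r(t) • (K ∩ B)`
with `r(t) = √(-2 log t)`, of measure `r(t)⁴ vol(K ∩ B)` (`Measure.addHaar_smul`,
`finrank = 4`; spheres have measure zero: `Measure.addHaar_closedBall` /
`Measure.addHaar_sphere`).  So the integral is `I · vol(K ∩ B)` with `I` independent of `K`;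
`K = univ` and `∫ exp(-‖x‖²/2) = (2π)² = 4π²` (`GaussianFourier.integral_rexp_neg_mul_sq_norm` with
`b = 1/2`) give `I · vol B = 4π²`.  (Any other proof is fine, e.g. polar coordinates
`MeasureTheory.Measure.toSphere`.) -/
theorem gauss_cone (K : Set E4) (hK : MeasurableSet K) (hc : ∀ x ∈ K, ∀ r : ℝ, 0 < r → r • x ∈ K) :
    ∫ x in K, Real.exp (-(‖x‖ ^ 2 / 2))
      = 4 * π ^ 2 * ((volume {x : E4 | ‖x‖ ≤ 1 ∧ x ∈ K}).toReal
          / (volume (Metric.closedBall (0 : E4) 1)).toReal) := by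
  rw [c1_real K hK hc]
  have h1 := c1_real Set.univ MeasurableSet.univ (fun _ _ _ _ => trivial)
  rw [setIntegral_univ] at h1
  have h2 : ∫ x : E4, Real.exp (-(‖x‖ ^ 2 / 2)) = 4 * π ^ 2 := by
    have h3 := GaussianFourier.integral_rexp_neg_mul_sq_norm (V := E4) (b := 1 / 2) (by norm_num)
    rw [finrank_euclideanSpace_fin] at h3
    have h4 : ∫ x : E4, Real.exp (-(‖x‖ ^ 2 / 2)) = ∫ v : E4, Real.exp (-(1 / 2) * ‖v‖ ^ 2) :=
      integral_congr_ae (Filter.Eventually.of_forall fun x => by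
        show Real.exp _ = Real.exp _
        congr 1
        ring)
    rw [h4, h3]
    have h5 : (((4 : ℕ) : ℝ) / 2) = ((2 : ℕ) : ℝ) := by norm_num
    rw [h5, Real.rpow_natCast]
    ring
  have h3 : {x : E4 | ‖x‖ ≤ 1 ∧ x ∈ (Set.univ : Set E4)} = Metric.closedBall (0 : E4) 1 := by
    ext x
    simp
  rw [h2, h3] at h1
  have h4 : 0 < (volume (Metric.closedBall (0 : E4) 1)).toReal :=
    ENNReal.toReal_pos (Metric.measure_closedBall_pos volume 0 one_pos).ne' (measure_closedBall_lt_top).ne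
  rw [h1]
  field_simp

end Pool.Agent.RSD
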