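import Mathlib
import Pool.Agent.RSD.Defs

set_option autoImplicit false

/-! # [RSD-C5] pointwise derivatives of the density (Plackett's identity) -/

open Real

namespace Pool.Agent.RSD

theorem c5_quad (α β γ t : ℝ) :
    HasDerivAt (fun t => α + β * t + γ * t ^ 2) (β + 2 * γ * t) t := by
  have h1 : HasDerivAt (fun t : ℝ => β * t) β t := by
    simpa using (hasDerivAt_id t).const_mul β
  have h2 : HasDerivAt (fun t : ℝ => γ * t ^ 2) (γ * (2 * t)) t := by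
    simpa using (hasDerivAt_pow 2 t).const_mul γ
  have h3 := (h1.const_add α).add h2
  refine h3.congr_deriv ?_
  ring

/-- **[RSD-C5a]** `∂/∂g dens = dens'` when `D > 0`.

Proof. `dens = exp(-Q/(2D)) / (4π²√D)`.  `D' = 2 q12` and
`Q' D - Q D' = - 2 Y1 Y2` (polynomial identities, `ring` after unfolding; here `'` is `∂/∂g`, e.g.
`A' = -2g+2bd`, `B' = -2g+2ac`, `C' = 2eg-(bc+ad)`, `q12' = -(1-e²)`, `q13' = c-de`,
`q14' = d-ce`, `q23' = a-be`, `q24' = b-ae`, `q11' = q22' = 0`).  So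
`∂/∂g log dens = -(Q'D-QD')/(2D²) - D'/(2D) = Y1 Y2/D² - q12/D`. -/
theorem dens_hasDerivAt_g (f : P5) (g z1 z2 z3 z4 : ℝ) (hD : 0 < f.D g) :
    HasDerivAt (fun t => f.dens t z1 z2 z3 z4) (f.dens' g z1 z2 z3 z4) g := by
  set D' : ℝ := 2 * q12 f.a f.b f.c f.d f.e g with hD'
  set Q' : ℝ := 2 * (-(1 - f.e ^ 2)) * z1 * z2 + (-2 * g + 2 * f.b * f.d) * z3 ^ 2
    + (-2 * g + 2 * f.a * f.c) * z4 ^ 2 + 2 * (f.c - f.d * f.e) * z1 * z3
    + 2 * (f.d - f.c * f.e) * z1 * z4 + 2 * (f.a - f.b * f.e) * z2 * z3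
    + 2 * (f.b - f.a * f.e) * z2 * z4 + 2 * (2 * f.e * g - (f.b * f.c + f.a * f.d)) * z3 * z4
    with hQ'
  have hDd : HasDerivAt (fun t => f.D t) D' g := by
    have h1 := c5_quad (f.D 0) (2 * (f.a * f.c + f.b * f.d - f.b * f.c * f.e - f.a * f.d * f.e))
      (-(1 - f.e ^ 2)) g
    have h2 : (fun t => f.D t) = fun t => f.D 0
        + (2 * (f.a * f.c + f.b * f.d - f.b * f.c * f.e - f.a * f.d * f.e)) * t
        + (-(1 - f.e ^ 2)) * t ^ 2 := by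
      funext t
      simp only [P5.D, qD]; ring
    rw [h2]
    refine h1.congr_deriv ?_
    rw [hD', q12]; ring
  have hQd : HasDerivAt (fun t => f.Q t z1 z2 z3 z4) Q' g := by
    have h1 := c5_quad (f.Q 0 z1 z2 z3 z4) (2 * (-(1 - f.e ^ 2)) * z1 * z2
      + (2 * f.b * f.d) * z3 ^ 2 + (2 * f.a * f.c) * z4 ^ 2 + 2 * (f.c - f.d * f.e) * z1 * z3
      + 2 * (f.d - f.c * f.e) * z1 * z4 + 2 * (f.a - f.b * f.e) * z2 * z3
      + 2 * (f.b - f.a * f.e) * z2 * z4 + 2 * (- (f.b * f.c + f.a * f.d)) * z3 * z4)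
      (-z3 ^ 2 - z4 ^ 2 + 2 * f.e * z3 * z4) g
    have h2 : (fun t => f.Q t z1 z2 z3 z4) = fun t => f.Q 0 z1 z2 z3 z4
        + (2 * (-(1 - f.e ^ 2)) * z1 * z2
      + (2 * f.b * f.d) * z3 ^ 2 + (2 * f.a * f.c) * z4 ^ 2 + 2 * (f.c - f.d * f.e) * z1 * z3
      + 2 * (f.d - f.c * f.e) * z1 * z4 + 2 * (f.a - f.b * f.e) * z2 * z3
      + 2 * (f.b - f.a * f.e) * z2 * z4 + 2 * (- (f.b * f.c + f.a * f.d)) * z3 * z4) * t
        + (-z3 ^ 2 - z4 ^ 2 + 2 * f.e * z3 * z4) * t ^ 2 := by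
      funext t
      simp only [P5.Q, P5.A, P5.B, P5.C, qA, qB, qC, q11, q22, q12, q13, q14, q23, q24]; ring
    rw [h2]
    refine h1.congr_deriv ?_
    rw [hQ']; ring
  have hkey : Q' * f.D g - f.Q g z1 z2 z3 z4 * D'
      = -2 * (f.Y1 g z1 z2 z3 z4 * f.Y2 g z1 z2 z3 z4) := by
    rw [hQ', hD']
    simp only [P5.D, P5.Q, P5.Y1, P5.Y2, P5.A, P5.B, P5.C, qA, qB, qC, qD, q11, q22, q12, q13,
      q14, q23, q24]
    ring
  set s : ℝ := √(f.D g) with hs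
  have hs0 : 0 < s := Real.sqrt_pos.mpr hD
  have hss : s ^ 2 = f.D g := Real.sq_sqrt hD.le
  have hpi : (0 : ℝ) < π := Real.pi_pos
  have hE : HasDerivAt (fun t => Real.exp (-(f.Q t z1 z2 z3 z4 / (2 * f.D t))))
      (Real.exp (-(f.Q g z1 z2 z3 z4 / (2 * f.D g)))
        * (-((Q' * (2 * f.D g) - f.Q g z1 z2 z3 z4 * (2 * D')) / (2 * f.D g) ^ 2))) g := by
    exact ((hQd.div (hDd.const_mul 2) (by positivity)).neg).exp
  have hS : HasDerivAt (fun t => 4 * π ^ 2 * √(f.D t)) (4 * π ^ 2 * (D' / (2 * s))) g :=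
    (hDd.sqrt hD.ne').const_mul _
  have hden : 4 * π ^ 2 * √(f.D g) ≠ 0 := by rw [← hs]; positivity
  have hfin := hE.div hS hden
  refine hfin.congr_deriv ?_
  have e1 : (Q' * (2 * f.D g) - f.Q g z1 z2 z3 z4 * (2 * D'))
      = -4 * (f.Y1 g z1 z2 z3 z4 * f.Y2 g z1 z2 z3 z4) := by linarith
  rw [e1]
  unfold P5.dens' P5.dens
  rw [← hs, hD', ← hss]
  field_simp
  ring

/-- **[RSD-C5b]** `∂/∂z₁ dens = - dens Y1/D` -/
theorem dens_hasDerivAt_z1 (f : P5) (g z1 z2 z3 z4 : ℝ) (hD : 0 < f.D g) :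
    HasDerivAt (fun t => f.dens g t z2 z3 z4)
      (-(f.dens g z1 z2 z3 z4 * f.Y1 g z1 z2 z3 z4 / f.D g)) z1 := by
  have hQd : HasDerivAt (fun t => f.Q g t z2 z3 z4) (2 * f.Y1 g z1 z2 z3 z4) z1 := by
    have h1 := c5_quad (f.Q g 0 z2 z3 z4) (2 * (q12 f.a f.b f.c f.d f.e g * z2
      + q13 f.a f.b f.c f.d f.e g * z3 + q14 f.a f.b f.c f.d f.e g * z4)) (q11 f.c f.d f.e) z1
    have h2 : (fun t => f.Q g t z2 z3 z4) = fun t => f.Q g 0 z2 z3 z4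
        + (2 * (q12 f.a f.b f.c f.d f.e g * z2
      + q13 f.a f.b f.c f.d f.e g * z3 + q14 f.a f.b f.c f.d f.e g * z4)) * t
        + (q11 f.c f.d f.e) * t ^ 2 := by
      funext t
      simp only [P5.Q]; ring
    rw [h2]
    refine h1.congr_deriv ?_
    rw [P5.Y1]; ring
  have hE : HasDerivAt (fun t => Real.exp (-(f.Q g t z2 z3 z4 / (2 * f.D g))))
      (Real.exp (-(f.Q g z1 z2 z3 z4 / (2 * f.D g)))
        * (-((2 * f.Y1 g z1 z2 z3 z4) / (2 * f.D g)))) z1 :=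
    ((hQd.div_const _).neg).exp
  have hfin := hE.div_const (4 * π ^ 2 * √(f.D g))
  refine hfin.congr_deriv ?_
  unfold P5.dens
  field_simp

theorem c5_z2 (f : P5) (g z1 z2 z3 z4 : ℝ) (hD : 0 < f.D g) :
    HasDerivAt (fun t => f.dens g z1 t z3 z4)
      (-(f.dens g z1 z2 z3 z4 * f.Y2 g z1 z2 z3 z4 / f.D g)) z2 := by
  have hQd : HasDerivAt (fun t => f.Q g z1 t z3 z4) (2 * f.Y2 g z1 z2 z3 z4) z2 := by
    have h1 := c5_quad (f.Q g z1 0 z3 z4) (2 * (q12 f.a f.b f.c f.d f.e g * z1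
      + q23 f.a f.b f.c f.d f.e g * z3 + q24 f.a f.b f.c f.d f.e g * z4)) (q22 f.a f.b f.e) z2
    have h2 : (fun t => f.Q g z1 t z3 z4) = fun t => f.Q g z1 0 z3 z4
        + (2 * (q12 f.a f.b f.c f.d f.e g * z1
      + q23 f.a f.b f.c f.d f.e g * z3 + q24 f.a f.b f.c f.d f.e g * z4)) * t
        + (q22 f.a f.b f.e) * t ^ 2 := by
      funext t
      simp only [P5.Q]; ring
    rw [h2]
    refine h1.congr_deriv ?_
    rw [P5.Y2]; ring
  have hE : HasDerivAt (fun t => Real.exp (-(f.Q g z1 t z3 z4 / (2 * f.D g))))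
      (Real.exp (-(f.Q g z1 z2 z3 z4 / (2 * f.D g)))
        * (-((2 * f.Y2 g z1 z2 z3 z4) / (2 * f.D g)))) z2 :=
    ((hQd.div_const _).neg).exp
  have hfin := hE.div_const (4 * π ^ 2 * √(f.D g))
  refine hfin.congr_deriv ?_
  unfold P5.dens
  field_simp

/-- **[RSD-C5c]** `∂/∂z₂ (- dens Y1/D) = dens'` (`∂Y1/∂z₂ = q12`, `∂Q/∂z₂ = 2 Y2`) -/
theorem dens_hasDerivAt_z2 (f : P5) (g z1 z2 z3 z4 : ℝ) (hD : 0 < f.D g) :
    HasDerivAt (fun t => -(f.dens g z1 t z3 z4 * f.Y1 g z1 t z3 z4 / f.D g))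
      (f.dens' g z1 z2 z3 z4) z2 := by
  have hY : HasDerivAt (fun t => f.Y1 g z1 t z3 z4) (q12 f.a f.b f.c f.d f.e g) z2 := by
    have h1 := c5_quad (f.Y1 g z1 0 z3 z4) (q12 f.a f.b f.c f.d f.e g) 0 z2
    have h2 : (fun t => f.Y1 g z1 t z3 z4) = fun t => f.Y1 g z1 0 z3 z4
        + (q12 f.a f.b f.c f.d f.e g) * t + 0 * t ^ 2 := by
      funext t
      simp only [P5.Y1]; ring
    rw [h2]
    refine h1.congr_deriv ?_
    ring
  have hfin := (((c5_z2 f g z1 z2 z3 z4 hD).mul hY).div_const (f.D g)).neg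
  refine hfin.congr_deriv ?_
  unfold P5.dens'
  field_simp
  ring

end Pool.Agent.RSD
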