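import Mathlib
import Pool.Agent.RSD.Defs
import Pool.Agent.RSD.C.C0

set_option autoImplicit false

/-! # [RSD-C3] the quadratic form -/

open Real

namespace Pool.Agent.RSD

/-- **[RSD-C3a]** `Q(⟪n_i, x⟫) = D ‖x‖²`.

Proof. `n` spans (`LinearIndependent` with `finrank = 4`), `x = ∑ y_j n_j`;
`⟪n_i, x⟫ = ∑_j G_ij y_j` and `‖x‖² = yᵀ G y`; the identity `(Gy)ᵀ C (Gy) = D yᵀ G y` is polynomial
(`simp only [P5.Q, P5.A, ..., q11, ...]; ring`, or use the 16 identities `C G = D I`, each `ring`,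
which are all true: they are checked). -/
theorem Q_eq (f : P5) (g : ℝ) (n : Fin 4 → E4) (h : IsGram f g n) (hn : LinearIndependent ℝ n)
    (x : E4) :
    f.Q g (inner ℝ (n 0) x) (inner ℝ (n 1) x) (inner ℝ (n 2) x) (inner ℝ (n 3) x)
      = f.D g * ‖x‖ ^ 2 := by
  have hspan : Submodule.span ℝ (Set.range n) = ⊤ :=
    hn.span_eq_top_of_card_eq_finrank' (by simp)
  have hx : x ∈ Submodule.span ℝ (Set.range n) := by rw [hspan]; exact Submodule.mem_top
  obtain ⟨y, hy⟩ := (Submodule.mem_span_range_iff_exists_fun ℝ).mp hx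
  rw [← hy, c0_norm_sq f g n h y]
  obtain ⟨h0, k01, k02, k03, k12, k13, k23⟩ := c0_inner f g n h
  have e0 : inner ℝ (n 0) (∑ i, y i • n i) = y 0 + g * y 1 + f.a * y 2 + f.b * y 3 := by
    simp only [Fin.sum_univ_four, inner_add_right, real_inner_smul_right, h0, h.h01, h.h02, h.h03]
    ring
  have e1 : inner ℝ (n 1) (∑ i, y i • n i) = g * y 0 + y 1 + f.c * y 2 + f.d * y 3 := by
    simp only [Fin.sum_univ_four, inner_add_right, real_inner_smul_right, h0, k01, h.h12, h.h13]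
    ring
  have e2 : inner ℝ (n 2) (∑ i, y i • n i) = f.a * y 0 + f.c * y 1 + y 2 + f.e * y 3 := by
    simp only [Fin.sum_univ_four, inner_add_right, real_inner_smul_right, h0, k02, k12, h.h23]
    ring
  have e3 : inner ℝ (n 3) (∑ i, y i • n i) = f.b * y 0 + f.d * y 1 + f.e * y 2 + y 3 := by
    simp only [Fin.sum_univ_four, inner_add_right, real_inner_smul_right, h0, k03, k13, k23]
    ring
  rw [e0, e1, e2, e3]
  simp only [c0_form, P5.D, P5.Q, P5.A, P5.B, P5.C, qA, qB, qC, qD, q11, q22, q12, q13, q14, q23,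
    q24]
  ring

/-- **[RSD-C3b]** lower bound of the quadratic form.

Proof. Take `n` from `exists_gram` and `x` with `⟪n_i, x⟫ = z_i` (the map
`x ↦ (⟪n_i, x⟫)_i` is injective, `n` spans, hence surjective between spaces of dimension 4); by
Cauchy–Schwarz `∑ z_i² ≤ 4 ‖x‖²`; `Q_eq`. -/
theorem Q_lower (f : P5) (g : ℝ) (h : f.PD g) (z1 z2 z3 z4 : ℝ) :
    f.D g * (z1 ^ 2 + z2 ^ 2 + z3 ^ 2 + z4 ^ 2) ≤ 4 * f.Q g z1 z2 z3 z4 := by
  obtain ⟨n, hg, hn⟩ := exists_gram f g h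
  have hD : 0 < f.D g := h.2.2
  obtain ⟨h0, k01, k02, k03, k12, k13, k23⟩ := c0_inner f g n hg
  set c0 : ℝ := (q11 f.c f.d f.e * z1 + q12 f.a f.b f.c f.d f.e g * z2
    + q13 f.a f.b f.c f.d f.e g * z3 + q14 f.a f.b f.c f.d f.e g * z4) with hc0
  set c1 : ℝ := (q12 f.a f.b f.c f.d f.e g * z1 + q22 f.a f.b f.e * z2
    + q23 f.a f.b f.c f.d f.e g * z3 + q24 f.a f.b f.c f.d f.e g * z4) with hc1
  set c2 : ℝ := (q13 f.a f.b f.c f.d f.e g * z1 + q23 f.a f.b f.c f.d f.e g * z2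
    + f.A g * z3 + f.C g * z4) with hc2
  set c3 : ℝ := (q14 f.a f.b f.c f.d f.e g * z1 + q24 f.a f.b f.c f.d f.e g * z2
    + f.C g * z3 + f.B g * z4) with hc3
  set x : E4 := (f.D g)⁻¹ • (c0 • n 0 + c1 • n 1 + c2 • n 2 + c3 • n 3) with hx
  have i0 : inner ℝ (n 0) x = z1 := by
    rw [hx]
    simp only [inner_add_right, real_inner_smul_right, h0, hg.h01, hg.h02, hg.h03]
    rw [inv_mul_eq_div, div_eq_iff hD.ne', hc0, hc1, hc2, hc3]
    simp only [P5.D, P5.A, P5.B, P5.C, qA, qB, qC, qD, q11, q22, q12, q13, q14, q23, q24]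
    ring
  have i1 : inner ℝ (n 1) x = z2 := by
    rw [hx]
    simp only [inner_add_right, real_inner_smul_right, h0, k01, hg.h12, hg.h13]
    rw [inv_mul_eq_div, div_eq_iff hD.ne', hc0, hc1, hc2, hc3]
    simp only [P5.D, P5.A, P5.B, P5.C, qA, qB, qC, qD, q11, q22, q12, q13, q14, q23, q24]
    ring
  have i2 : inner ℝ (n 2) x = z3 := by
    rw [hx]
    simp only [inner_add_right, real_inner_smul_right, h0, k02, k12, hg.h23]
    rw [inv_mul_eq_div, div_eq_iff hD.ne', hc0, hc1, hc2, hc3]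
    simp only [P5.D, P5.A, P5.B, P5.C, qA, qB, qC, qD, q11, q22, q12, q13, q14, q23, q24]
    ring
  have i3 : inner ℝ (n 3) x = z4 := by
    rw [hx]
    simp only [inner_add_right, real_inner_smul_right, h0, k03, k13, k23]
    rw [inv_mul_eq_div, div_eq_iff hD.ne', hc0, hc1, hc2, hc3]
    simp only [P5.D, P5.A, P5.B, P5.C, qA, qB, qC, qD, q11, q22, q12, q13, q14, q23, q24]
    ring
  have hQ := Q_eq f g n hg hn x
  rw [i0, i1, i2, i3] at hQ
  rw [hQ]
  have hcs : ∀ i, (inner ℝ (n i) x) ^ 2 ≤ ‖x‖ ^ 2 := by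
    intro i
    have h1 := abs_real_inner_le_norm (n i) x
    rw [hg.unit i, one_mul] at h1
    have h2 := norm_nonneg x
    rw [← sq_abs (inner ℝ (n i) x)]
    exact pow_le_pow_left₀ (abs_nonneg _) h1 2
  have s0 := hcs 0
  have s1 := hcs 1
  have s2 := hcs 2
  have s3 := hcs 3
  rw [i0] at s0
  rw [i1] at s1
  rw [i2] at s2
  rw [i3] at s3
  nlinarith

end Pool.Agent.RSD
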