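import Mathlib
import Pool.Agent.RSD.Defs
import Pool.Agent.RSD.C.C3

set_option autoImplicit false

/-! # [RSD-C6] Gaussian bounds for the density -/

open Real MeasureTheory

namespace Pool.Agent.RSD

theorem c6_exp (s : ℝ) : Real.exp (-(s / 8)) * (1 + s) ≤ 16 * Real.exp (-(s / 16)) := by
  have h1 : (1 + s) ≤ 16 * Real.exp (s / 16) := by
    have := Real.add_one_le_exp (s / 16)
    linarith
  have h2 : Real.exp (-(s / 8)) = Real.exp (-(s / 16)) * Real.exp (-(s / 16)) := by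
    rw [← Real.exp_add]
    congr 1
    ring
  have h3 : Real.exp (s / 16) * Real.exp (-(s / 16)) = 1 := by
    rw [← Real.exp_add]
    simp
  have h4 : 0 < Real.exp (-(s / 16)) := Real.exp_pos _
  calc Real.exp (-(s / 8)) * (1 + s) ≤ Real.exp (-(s / 8)) * (16 * Real.exp (s / 16)) :=
        mul_le_mul_of_nonneg_left h1 (Real.exp_pos _).le
    _ = 16 * Real.exp (-(s / 16)) * (Real.exp (s / 16) * Real.exp (-(s / 16))) := by
        rw [h2]; ring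
    _ = 16 * Real.exp (-(s / 16)) := by rw [h3, mul_one]

theorem c6_lin {L a b c d z1 z2 z3 z4 : ℝ} (ha : |a| ≤ L) (hb : |b| ≤ L) (hc : |c| ≤ L)
    (hd : |d| ≤ L) : |a * z1 + b * z2 + c * z3 + d * z4| ≤ L * (|z1| + |z2| + |z3| + |z4|) := by
  have h1 : |a * z1| ≤ L * |z1| := by
    rw [abs_mul]; exact mul_le_mul_of_nonneg_right ha (abs_nonneg _)
  have h2 : |b * z2| ≤ L * |z2| := by
    rw [abs_mul]; exact mul_le_mul_of_nonneg_right hb (abs_nonneg _)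
  have h3 : |c * z3| ≤ L * |z3| := by
    rw [abs_mul]; exact mul_le_mul_of_nonneg_right hc (abs_nonneg _)
  have h4 : |d * z4| ≤ L * |z4| := by
    rw [abs_mul]; exact mul_le_mul_of_nonneg_right hd (abs_nonneg _)
  have t1 := abs_add_le (a * z1 + b * z2 + c * z3) (d * z4)
  have t2 := abs_add_le (a * z1 + b * z2) (c * z3)
  have t3 := abs_add_le (a * z1) (b * z2)
  have e : L * (|z1| + |z2| + |z3| + |z4|) = L * |z1| + L * |z2| + L * |z3| + L * |z4| := by ring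
  rw [e]
  linarith

theorem c6_sum_sq (z1 z2 z3 z4 : ℝ) :
    (|z1| + |z2| + |z3| + |z4|) ^ 2 ≤ 4 * (z1 ^ 2 + z2 ^ 2 + z3 ^ 2 + z4 ^ 2) := by
  rw [← sq_abs z1, ← sq_abs z2, ← sq_abs z3, ← sq_abs z4]
  nlinarith [sq_nonneg (|z1| - |z2|), sq_nonneg (|z1| - |z3|), sq_nonneg (|z1| - |z4|),
    sq_nonneg (|z2| - |z3|), sq_nonneg (|z2| - |z4|), sq_nonneg (|z3| - |z4|)]

theorem c6_sum_le (z1 z2 z3 z4 : ℝ) :
    |z1| + |z2| + |z3| + |z4| ≤ 4 * (1 + (z1 ^ 2 + z2 ^ 2 + z3 ^ 2 + z4 ^ 2)) := by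
  rw [← sq_abs z1, ← sq_abs z2, ← sq_abs z3, ← sq_abs z4]
  nlinarith [sq_nonneg (|z1| - 1), sq_nonneg (|z2| - 1), sq_nonneg (|z3| - 1),
    sq_nonneg (|z4| - 1), sq_nonneg (|z1|), sq_nonneg (|z2|), sq_nonneg (|z3|), sq_nonneg (|z4|)]

theorem c6_D_cont (f : P5) : Continuous f.D := by
  unfold P5.D qD
  fun_prop

/-- all coefficients are bounded near `g0` -/
theorem c6_coeff (f : P5) (g0 : ℝ) : ∃ L : ℝ, 0 ≤ L ∧ ∀ g : ℝ, |g - g0| ≤ 1 →
    |q11 f.c f.d f.e| ≤ L ∧ |q12 f.a f.b f.c f.d f.e g| ≤ L ∧ |q13 f.a f.b f.c f.d f.e g| ≤ L ∧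
    |q14 f.a f.b f.c f.d f.e g| ≤ L ∧ |q22 f.a f.b f.e| ≤ L ∧
    |q23 f.a f.b f.c f.d f.e g| ≤ L ∧ |q24 f.a f.b f.c f.d f.e g| ≤ L := by
  have hc : Continuous (fun g : ℝ => |q11 f.c f.d f.e| + |q12 f.a f.b f.c f.d f.e g| +
      |q13 f.a f.b f.c f.d f.e g| + |q14 f.a f.b f.c f.d f.e g| + |q22 f.a f.b f.e| +
      |q23 f.a f.b f.c f.d f.e g| + |q24 f.a f.b f.c f.d f.e g|) := by
    unfold q12 q13 q14 q23 q24
    fun_prop
  obtain ⟨L, hL⟩ := (isCompact_Icc (a := g0 - 1) (b := g0 + 1)).exists_bound_of_continuousOn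
    hc.continuousOn
  refine ⟨max L 0, le_max_right _ _, fun g hg => ?_⟩
  rw [abs_le] at hg
  have h := hL g ⟨by linarith [hg.1], by linarith [hg.2]⟩
  rw [Real.norm_eq_abs] at h
  have h' := (le_abs_self _).trans (h.trans (le_max_left L 0))
  have n1 := abs_nonneg (q11 f.c f.d f.e)
  have n2 := abs_nonneg (q12 f.a f.b f.c f.d f.e g)
  have n3 := abs_nonneg (q13 f.a f.b f.c f.d f.e g)
  have n4 := abs_nonneg (q14 f.a f.b f.c f.d f.e g)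
  have n5 := abs_nonneg (q22 f.a f.b f.e)
  have n6 := abs_nonneg (q23 f.a f.b f.c f.d f.e g)
  have n7 := abs_nonneg (q24 f.a f.b f.c f.d f.e g)
  exact ⟨by linarith, by linarith, by linarith, by linarith, by linarith, by linarith,
    by linarith⟩

/-- the bound of the density -/
theorem c6_dens (f : P5) (g δ : ℝ) (h : f.PD g) (hδ : 0 < δ) (hD : δ ≤ f.D g)
    (z1 z2 z3 z4 : ℝ) : 0 ≤ f.dens g z1 z2 z3 z4 ∧ f.dens g z1 z2 z3 z4 ≤
      1 / √δ * Real.exp (-((z1 ^ 2 + z2 ^ 2 + z3 ^ 2 + z4 ^ 2) / 8)) := by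
  have hDp : 0 < f.D g := h.2.2
  have hsD : 0 < √(f.D g) := Real.sqrt_pos.2 hDp
  have hsδ : 0 < √δ := Real.sqrt_pos.2 hδ
  have hpi : (1 : ℝ) ≤ 4 * π ^ 2 := by nlinarith [Real.pi_gt_three]
  have hle : √δ ≤ √(f.D g) := Real.sqrt_le_sqrt hD
  have hden : √δ ≤ 4 * π ^ 2 * √(f.D g) := by nlinarith
  have hq : (z1 ^ 2 + z2 ^ 2 + z3 ^ 2 + z4 ^ 2) / 8 ≤ f.Q g z1 z2 z3 z4 / (2 * f.D g) := by
    have := Q_lower f g h z1 z2 z3 z4
    rw [div_le_div_iff₀ (by norm_num) (by positivity)]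
    nlinarith
  unfold P5.dens
  constructor
  · positivity
  · rw [div_eq_mul_inv, mul_comm, one_div]
    apply mul_le_mul
    · exact inv_anti₀ hsδ hden
    · apply Real.exp_le_exp.2
      linarith
    · exact (Real.exp_pos _).le
    · exact (inv_pos.2 hsδ).le

theorem c6_abs_div {x D δ B : ℝ} (hδ : 0 < δ) (hD : δ ≤ D) (hx : |x| ≤ B) : |x / D| ≤ B / δ := by
  have hDp : 0 < D := lt_of_lt_of_le hδ hD
  rw [abs_div, abs_of_pos hDp]
  have hB : 0 ≤ B := (abs_nonneg _).trans hx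
  exact div_le_div₀ hB hx hδ hD

/-- **[RSD-C6a]** Near a positive definite `g0` the density, its derivative `dens'` and
`dens Y1/D` are bounded by `K exp(-|z|²/16)`.

Proof. `f.D` is continuous, so `D g ≥ D g0 / 2 =: δ > 0` and `|g| ≤ |g0| + 1` for
`|g - g0| < ε`; `PD` only needs `0 < D g` (the two other conditions do not depend on `g`).  By
`Q_lower`, `Q/(2D) ≥ |z|²/8`, so `dens ≤ exp(-|z|²/8)/(4π²√δ)`.  The coefficients of `Y1`, `Y2`, and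
`q12` are continuous in `g`, so bounded by some `L` on the ball: `|Y1|, |Y2| ≤ L (|z1|+...+|z4|)`,
`|Y1 Y2| ≤ 4 L² |z|²`, `|Y1| ≤ L·(...)≤ L (4 + |z|²)`; and
`(1 + |z|²) exp(-|z|²/8) ≤ 16 exp(-|z|²/16)` (`1 + s ≤ 16 exp (s/16)` by `Real.add_one_le_exp`). -/
theorem dens_bound (f : P5) (g0 : ℝ) (h : f.PD g0) :
    ∃ ε : ℝ, 0 < ε ∧ ∃ K : ℝ, 0 ≤ K ∧ ∀ g : ℝ, |g - g0| < ε → f.PD g ∧
      ∀ z1 z2 z3 z4 : ℝ, 0 ≤ f.dens g z1 z2 z3 z4 ∧
        f.dens g z1 z2 z3 z4 ≤ K * Real.exp (-((z1 ^ 2 + z2 ^ 2 + z3 ^ 2 + z4 ^ 2) / 16)) ∧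
        |f.dens' g z1 z2 z3 z4| ≤ K * Real.exp (-((z1 ^ 2 + z2 ^ 2 + z3 ^ 2 + z4 ^ 2) / 16)) ∧
        |f.dens g z1 z2 z3 z4 * f.Y1 g z1 z2 z3 z4 / f.D g|
          ≤ K * Real.exp (-((z1 ^ 2 + z2 ^ 2 + z3 ^ 2 + z4 ^ 2) / 16)) := by
  obtain ⟨L, hL0, hL⟩ := c6_coeff f g0
  have hD0 : 0 < f.D g0 := h.2.2
  set δ : ℝ := f.D g0 / 2 with hδdef
  have hδ : 0 < δ := by rw [hδdef]; linarith
  have hev : ∀ᶠ g in nhds g0, δ < f.D g :=
    (c6_D_cont f).continuousAt.eventually (lt_mem_nhds (by rw [hδdef]; linarith))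
  obtain ⟨ε, hε, hε'⟩ := Metric.eventually_nhds_iff.1 hev
  have hM : 0 < 1 / √δ := by
    have := Real.sqrt_pos.2 hδ
    positivity
  set M : ℝ := 1 / √δ with hMdef
  set P : ℝ := 4 * L ^ 2 / δ ^ 2 + L / δ + 4 * L / δ + 1 with hPdef
  have hP1 : 0 ≤ 4 * L ^ 2 / δ ^ 2 := by positivity
  have hP2 : 0 ≤ L / δ := by positivity
  have hP3 : 0 ≤ 4 * L / δ := by positivity
  have hP0 : 0 ≤ P := by rw [hPdef]; linarith
  refine ⟨min ε 1, lt_min hε one_pos, 16 * M * P, by positivity, ?_⟩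
  intro g hg
  have hg1 : |g - g0| ≤ 1 := (hg.trans_le (min_le_right _ _)).le
  have hD : δ ≤ f.D g := (hε' (by
    rw [Real.dist_eq]
    exact hg.trans_le (min_le_left _ _))).le
  have hDp : 0 < f.D g := lt_of_lt_of_le hδ hD
  have hPD : f.PD g := ⟨h.1, h.2.1, hDp⟩
  refine ⟨hPD, fun z1 z2 z3 z4 => ?_⟩
  obtain ⟨l11, l12, l13, l14, l22, l23, l24⟩ := hL g hg1
  obtain ⟨hd0, hd1⟩ := c6_dens f g δ hPD hδ hD z1 z2 z3 z4
  rw [← hMdef] at hd1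
  set s : ℝ := z1 ^ 2 + z2 ^ 2 + z3 ^ 2 + z4 ^ 2 with hs
  have hs0 : 0 ≤ s := by rw [hs]; positivity
  have hY1 : |f.Y1 g z1 z2 z3 z4| ≤ L * (|z1| + |z2| + |z3| + |z4|) := c6_lin l11 l12 l13 l14
  have hY2 : |f.Y2 g z1 z2 z3 z4| ≤ L * (|z1| + |z2| + |z3| + |z4|) := c6_lin l12 l22 l23 l24
  have hT0 : 0 ≤ |z1| + |z2| + |z3| + |z4| := by positivity
  have hT1 := c6_sum_sq z1 z2 z3 z4
  have hT2 := c6_sum_le z1 z2 z3 z4
  rw [← hs] at hT1 hT2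
  -- the general estimate
  have key : ∀ x : ℝ, |x| ≤ P * (1 + s) → |f.dens g z1 z2 z3 z4 * x| ≤
      16 * M * P * Real.exp (-(s / 16)) := by
    intro x hx
    rw [abs_mul, abs_of_nonneg hd0]
    calc f.dens g z1 z2 z3 z4 * |x| ≤ (M * Real.exp (-(s / 8))) * (P * (1 + s)) :=
          mul_le_mul hd1 hx (abs_nonneg _) (by positivity)
      _ = M * P * (Real.exp (-(s / 8)) * (1 + s)) := by ring
      _ ≤ M * P * (16 * Real.exp (-(s / 16))) :=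
          mul_le_mul_of_nonneg_left (c6_exp s) (by positivity)
      _ = 16 * M * P * Real.exp (-(s / 16)) := by ring
  refine ⟨hd0, ?_, ?_, ?_⟩
  · have h1 : |(1 : ℝ)| ≤ P * (1 + s) := by
      rw [abs_one]
      have : (1 : ℝ) ≤ P := by rw [hPdef]; linarith
      nlinarith
    have := key 1 h1
    rw [mul_one] at this
    exact (le_abs_self _).trans this
  · unfold P5.dens'
    apply key
    have hYY : |f.Y1 g z1 z2 z3 z4 * f.Y2 g z1 z2 z3 z4| ≤ 4 * L ^ 2 * s := by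
      rw [abs_mul]
      calc |f.Y1 g z1 z2 z3 z4| * |f.Y2 g z1 z2 z3 z4|
          ≤ (L * (|z1| + |z2| + |z3| + |z4|)) * (L * (|z1| + |z2| + |z3| + |z4|)) :=
            mul_le_mul hY1 hY2 (abs_nonneg _) (by positivity)
        _ = L ^ 2 * (|z1| + |z2| + |z3| + |z4|) ^ 2 := by ring
        _ ≤ L ^ 2 * (4 * s) := mul_le_mul_of_nonneg_left hT1 (by positivity)
        _ = 4 * L ^ 2 * s := by ring
    have hD2 : δ ^ 2 ≤ f.D g ^ 2 := pow_le_pow_left₀ hδ.le hD 2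
    have e1 := c6_abs_div (by positivity) hD2 hYY
    have e2 := c6_abs_div hδ hD l12
    have e3 := abs_sub (f.Y1 g z1 z2 z3 z4 * f.Y2 g z1 z2 z3 z4 / f.D g ^ 2)
      (q12 f.a f.b f.c f.d f.e g / f.D g)
    have e4 : 4 * L ^ 2 * s / δ ^ 2 = 4 * L ^ 2 / δ ^ 2 * s := by ring
    rw [e4] at e1
    have e5 : P * (1 + s) = 4 * L ^ 2 / δ ^ 2 * s + L / δ + (4 * L ^ 2 / δ ^ 2 + L / δ * s +
        4 * L / δ * (1 + s) + (1 + s)) := by rw [hPdef]; ring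
    have e6 : 0 ≤ 4 * L ^ 2 / δ ^ 2 + L / δ * s + 4 * L / δ * (1 + s) + (1 + s) := by positivity
    linarith
  · rw [mul_div_assoc]
    apply key
    have hY1' : |f.Y1 g z1 z2 z3 z4| ≤ 4 * L * (1 + s) := by
      calc |f.Y1 g z1 z2 z3 z4| ≤ L * (|z1| + |z2| + |z3| + |z4|) := hY1
        _ ≤ L * (4 * (1 + s)) := mul_le_mul_of_nonneg_left hT2 hL0
        _ = 4 * L * (1 + s) := by ring
    have e1 := c6_abs_div hδ hD hY1'
    have e4 : 4 * L * (1 + s) / δ = 4 * L / δ * (1 + s) := by ring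
    rw [e4] at e1
    have e5 : P * (1 + s) = 4 * L / δ * (1 + s) + (4 * L ^ 2 / δ ^ 2 + L / δ + 1) * (1 + s) := by
      rw [hPdef]; ring
    have e6 : 0 ≤ (4 * L ^ 2 / δ ^ 2 + L / δ + 1) * (1 + s) := by positivity
    linarith

/-- **[RSD-C6b]** integrability of the Gaussian (product of four one-dimensional ones,
`Integrable.mul_prod`/`Integrable.prod_mul`, `integrable_exp_neg_mul_sq`). -/
theorem gauss_integrable :
    Integrable (fun w : (ℝ × ℝ) × (ℝ × ℝ) =>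
      Real.exp (-((w.2.1 ^ 2 + w.2.2 ^ 2 + w.1.1 ^ 2 + w.1.2 ^ 2) / 16))) := by
  have hg : Integrable (fun x : ℝ => Real.exp (-(1 / 16) * x ^ 2)) :=
    integrable_exp_neg_mul_sq (by norm_num)
  have h2 := hg.mul_prod hg
  have h4 := h2.mul_prod h2
  refine (h4.congr ?_)
  refine Filter.Eventually.of_forall fun w => ?_
  show Real.exp (-(1 / 16) * w.1.1 ^ 2) * Real.exp (-(1 / 16) * w.1.2 ^ 2) *
      (Real.exp (-(1 / 16) * w.2.1 ^ 2) * Real.exp (-(1 / 16) * w.2.2 ^ 2)) =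
      Real.exp (-((w.2.1 ^ 2 + w.2.2 ^ 2 + w.1.1 ^ 2 + w.1.2 ^ 2) / 16))
  rw [← Real.exp_add, ← Real.exp_add, ← Real.exp_add]
  congr 1
  ring

/-- **[RSD-C6c]** the density and `dens'` are continuous in `w` (for fixed `g`) -/
theorem dens_continuous (f : P5) (g : ℝ) :
    Continuous (fun w : (ℝ × ℝ) × (ℝ × ℝ) => f.dens g w.2.1 w.2.2 w.1.1 w.1.2) ∧
    Continuous (fun w : (ℝ × ℝ) × (ℝ × ℝ) => f.dens' g w.2.1 w.2.2 w.1.1 w.1.2) := by
  have h1 : Continuous (fun w : (ℝ × ℝ) × (ℝ × ℝ) => f.dens g w.2.1 w.2.2 w.1.1 w.1.2) := by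
    unfold P5.dens P5.Q
    fun_prop
  refine ⟨h1, ?_⟩
  unfold P5.dens'
  refine h1.mul ?_
  unfold P5.Y1 P5.Y2
  fun_prop

end Pool.Agent.RSD
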