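import Mathlib
import Pool.Agent.RSD.Defs
import Pool.Agent.RSD.C.C5
import Pool.Agent.RSD.C.C6

set_option autoImplicit false

/-! # [RSD-C7] differentiation under the integral sign -/

open Real MeasureTheory

namespace Pool.Agent.RSD

/-- **[RSD-C7]** `hasDerivAt_integral_of_dominated_loc_of_deriv_le` on the measure
`volume.restrict Orth` with the bound `K exp(-|w|²/16)` (`dens_bound`, `gauss_integrable`,
`dens_continuous`, `dens_hasDerivAt_g`). -/
theorem Fr_hasDerivAt_g (f : P5) (g : ℝ) (h : f.PD g) :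
    HasDerivAt f.Fr (∫ w in P5.Orth, f.dens' g w.2.1 w.2.2 w.1.1 w.1.2) g := by
  obtain ⟨ε, hε, K, hK, hb⟩ := dens_bound f g h
  have hgi := gauss_integrable
  have hmain := hasDerivAt_integral_of_dominated_loc_of_deriv_le
    (μ := volume.restrict P5.Orth)
    (F := fun (t : ℝ) (w : (ℝ × ℝ) × (ℝ × ℝ)) => f.dens t w.2.1 w.2.2 w.1.1 w.1.2)
    (F' := fun (t : ℝ) (w : (ℝ × ℝ) × (ℝ × ℝ)) => f.dens' t w.2.1 w.2.2 w.1.1 w.1.2)
    (x₀ := g) (s := Metric.ball g ε)
    (bound := fun w : (ℝ × ℝ) × (ℝ × ℝ) =>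
      K * Real.exp (-((w.2.1 ^ 2 + w.2.2 ^ 2 + w.1.1 ^ 2 + w.1.2 ^ 2) / 16)))
    (Metric.ball_mem_nhds g hε) ?_ ?_ ?_ ?_ ?_ ?_
  · exact hmain.2
  · exact Filter.Eventually.of_forall (fun t => ((dens_continuous f t).1).aestronglyMeasurable)
  · refine Integrable.mono' ((hgi.const_mul K).restrict)
      ((dens_continuous f g).1).aestronglyMeasurable ?_
    refine Filter.Eventually.of_forall (fun w => ?_)
    have hg0 : |g - g| < ε := by rw [sub_self, abs_zero]; exact hε
    obtain ⟨h1, h2, _⟩ := (hb g hg0).2 w.2.1 w.2.2 w.1.1 w.1.2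
    rw [Real.norm_eq_abs, abs_of_nonneg h1]
    exact h2
  · exact ((dens_continuous f g).2).aestronglyMeasurable
  · refine Filter.Eventually.of_forall (fun w => ?_)
    intro t ht
    rw [Metric.mem_ball, Real.dist_eq] at ht
    obtain ⟨_, _, h3, _⟩ := (hb t ht).2 w.2.1 w.2.2 w.1.1 w.1.2
    rw [Real.norm_eq_abs]
    exact h3
  · exact (hgi.const_mul K).restrict
  · refine Filter.Eventually.of_forall (fun w => ?_)
    intro t ht
    rw [Metric.mem_ball, Real.dist_eq] at ht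
    exact dens_hasDerivAt_g f t _ _ _ _ (hb t ht).1.2.2

end Pool.Agent.RSD
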