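import Mathlib
import Pool.Agent.RSD.Defs
import Pool.Agent.RSD.C.C5
import Pool.Agent.RSD.C.C6

set_option autoImplicit false

/-! # [RSD-C8] integrating the mixed derivative -/

open Real MeasureTheory

namespace Pool.Agent.RSD

seal P5.dens P5.dens' P5.Y1 P5.D

theorem c8_exp_le (K z1 z2 z3 z4 : ℝ) (hK : 0 ≤ K) :
    K * Real.exp (-((z1 ^ 2 + z2 ^ 2 + z3 ^ 2 + z4 ^ 2) / 16)) ≤
      K * (Real.exp (-(1 / 16) * z1 ^ 2) * Real.exp (-(1 / 16) * z2 ^ 2)) := by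
  apply mul_le_mul_of_nonneg_left _ hK
  rw [← Real.exp_add]
  apply Real.exp_le_exp.2
  nlinarith [sq_nonneg z3, sq_nonneg z4]

theorem c8_exp_le_one (z : ℝ) : Real.exp (-(1 / 16) * z ^ 2) ≤ 1 := by
  rw [Real.exp_le_one_iff]
  nlinarith [sq_nonneg z]

theorem c8_gauss : Integrable (fun z : ℝ => Real.exp (-(1 / 16) * z ^ 2)) :=
  integrable_exp_neg_mul_sq (by norm_num)

theorem c8_tendsto (K : ℝ) :
    Filter.Tendsto (fun z : ℝ => K * Real.exp (-(1 / 16) * z ^ 2)) Filter.atTop (nhds 0) := by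
  have h1 : Filter.Tendsto (fun z : ℝ => -(1 / 16) * z ^ 2) Filter.atTop Filter.atBot := by
    apply Filter.Tendsto.const_mul_atTop_of_neg (by norm_num)
    exact Filter.tendsto_pow_atTop (by norm_num)
  have h2 := (Real.tendsto_exp_atBot.comp h1).const_mul K
  rw [mul_zero] at h2
  exact h2

theorem c8_bounds (f : P5) (g : ℝ) (h : f.PD g) : ∃ K : ℝ, 0 ≤ K ∧ ∀ z1 z2 z3 z4 : ℝ,
    |f.dens g z1 z2 z3 z4| ≤ K * (Real.exp (-(1 / 16) * z1 ^ 2) * Real.exp (-(1 / 16) * z2 ^ 2)) ∧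
    |f.dens' g z1 z2 z3 z4| ≤ K * (Real.exp (-(1 / 16) * z1 ^ 2) * Real.exp (-(1 / 16) * z2 ^ 2)) ∧
    |f.dens g z1 z2 z3 z4 * f.Y1 g z1 z2 z3 z4 / f.D g|
      ≤ K * (Real.exp (-(1 / 16) * z1 ^ 2) * Real.exp (-(1 / 16) * z2 ^ 2)) := by
  obtain ⟨ε, hε, K, hK, hb⟩ := dens_bound f g h
  obtain ⟨-, hb⟩ := hb g (by simpa using hε)
  refine ⟨K, hK, fun z1 z2 z3 z4 => ?_⟩
  obtain ⟨h1, h2, h3, h4⟩ := hb z1 z2 z3 z4
  have h5 := c8_exp_le K z1 z2 z3 z4 hK
  refine ⟨?_, h3.trans h5, h4.trans h5⟩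
  rw [abs_of_nonneg h1]
  exact h2.trans h5

theorem c8_one (K a b : ℝ) (hK : 0 ≤ K) (x : ℝ) (h : x ≤ K * (Real.exp (-(1 / 16) * a ^ 2) *
    Real.exp (-(1 / 16) * b ^ 2))) : x ≤ K * Real.exp (-(1 / 16) * a ^ 2) := by
  refine h.trans ?_
  apply mul_le_mul_of_nonneg_left _ hK
  have h1 := c8_exp_le_one b
  have h2 := (Real.exp_pos (-(1 / 16) * a ^ 2)).le
  calc _ ≤ Real.exp (-(1 / 16) * a ^ 2) * 1 := mul_le_mul_of_nonneg_left h1 h2
    _ = _ := mul_one _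

theorem c8_two (K a b : ℝ) (hK : 0 ≤ K) (x : ℝ) (h : x ≤ K * (Real.exp (-(1 / 16) * a ^ 2) *
    Real.exp (-(1 / 16) * b ^ 2))) : x ≤ K * Real.exp (-(1 / 16) * b ^ 2) := by
  apply c8_one K b a hK x
  rwa [mul_comm (Real.exp (-(1 / 16) * b ^ 2))]

/-- **[RSD-C8a]** inner integral over `z₂`: `∫_{z₂ ≥ 0} dens' = dens(z₁,0,z₃,z₄) Y1(z₁,0,z₃,z₄)/D`
(`dens_hasDerivAt_z2`, `integral_Ioi_of_hasDerivAt_of_tendsto`, the antiderivative
`-(dens Y1/D)` tends to `0` by `dens_bound`; integrability by `dens_bound`;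
`integral_Ici_eq_integral_Ioi`). -/
theorem integral_z2 (f : P5) (g : ℝ) (h : f.PD g) (z1 z3 z4 : ℝ) :
    ∫ z2 in Set.Ici (0 : ℝ), f.dens' g z1 z2 z3 z4
      = f.dens g z1 0 z3 z4 * f.Y1 g z1 0 z3 z4 / f.D g := by
  have hD : 0 < f.D g := h.2.2
  obtain ⟨K, hK, hb⟩ := c8_bounds f g h
  have hcont : Continuous (fun z2 : ℝ => f.dens' g z1 z2 z3 z4) := by
    have h1 : Continuous (fun z2 : ℝ => (((z3, z4), (z1, z2)) : (ℝ × ℝ) × (ℝ × ℝ))) := by fun_prop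
    have h2 := (dens_continuous f g).2.comp h1
    simp only [Function.comp_def] at h2
    exact h2
  have hint : Integrable (fun z2 : ℝ => f.dens' g z1 z2 z3 z4) := by
    refine Integrable.mono' (c8_gauss.const_mul K) hcont.aestronglyMeasurable ?_
    refine Filter.Eventually.of_forall (fun z2 => ?_)
    rw [Real.norm_eq_abs]
    exact c8_two K z1 z2 hK _ (hb z1 z2 z3 z4).2.1
  have hlim : Filter.Tendsto (fun z2 : ℝ => -(f.dens g z1 z2 z3 z4 * f.Y1 g z1 z2 z3 z4 / f.D g))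
      Filter.atTop (nhds 0) := by
    apply squeeze_zero_norm _ (c8_tendsto K)
    intro z2
    rw [norm_neg, Real.norm_eq_abs]
    exact c8_two K z1 z2 hK _ (hb z1 z2 z3 z4).2.2
  have h1 := integral_Ioi_of_hasDerivAt_of_tendsto' (a := 0)
    (fun z2 _ => dens_hasDerivAt_z2 f g z1 z2 z3 z4 hD) hint.integrableOn hlim
  rw [integral_Ici_eq_integral_Ioi, h1]
  ring

/-- **[RSD-C8b]** integral over `z₁`: `∫_{z₁ ≥ 0} dens(z₁,0,..) Y1(z₁,0,..)/D = dens(0,0,z₃,z₄)`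
(`dens_hasDerivAt_z1`, same method). -/
theorem integral_z1 (f : P5) (g : ℝ) (h : f.PD g) (z3 z4 : ℝ) :
    ∫ z1 in Set.Ici (0 : ℝ), f.dens g z1 0 z3 z4 * f.Y1 g z1 0 z3 z4 / f.D g
      = f.dens g 0 0 z3 z4 := by
  have hD : 0 < f.D g := h.2.2
  obtain ⟨K, hK, hb⟩ := c8_bounds f g h
  have hc0 : Continuous (fun z1 : ℝ => f.dens g z1 0 z3 z4) := by
    have h1 : Continuous (fun z1 : ℝ => (((z3, z4), (z1, 0)) : (ℝ × ℝ) × (ℝ × ℝ))) := by fun_prop
    have h2 := (dens_continuous f g).1.comp h1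
    simp only [Function.comp_def] at h2
    exact h2
  have hcont : Continuous (fun z1 : ℝ => f.dens g z1 0 z3 z4 * f.Y1 g z1 0 z3 z4 / f.D g) := by
    have h2 : Continuous (fun z1 : ℝ => f.Y1 g z1 0 z3 z4) := by
      unfold P5.Y1
      fun_prop
    exact (hc0.mul h2).div_const _
  have hint : Integrable (fun z1 : ℝ => f.dens g z1 0 z3 z4 * f.Y1 g z1 0 z3 z4 / f.D g) := by
    refine Integrable.mono' (c8_gauss.const_mul K) hcont.aestronglyMeasurable ?_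
    refine Filter.Eventually.of_forall (fun z1 => ?_)
    rw [Real.norm_eq_abs]
    exact c8_one K z1 0 hK _ (hb z1 0 z3 z4).2.2
  have hlim : Filter.Tendsto (fun z1 : ℝ => -(f.dens g z1 0 z3 z4)) Filter.atTop (nhds 0) := by
    apply squeeze_zero_norm _ (c8_tendsto K)
    intro z1
    rw [norm_neg, Real.norm_eq_abs]
    exact c8_one K z1 0 hK _ (hb z1 0 z3 z4).1
  have hder : ∀ z1 ∈ Set.Ici (0 : ℝ), HasDerivAt (fun z1 : ℝ => -(f.dens g z1 0 z3 z4))
      (f.dens g z1 0 z3 z4 * f.Y1 g z1 0 z3 z4 / f.D g) z1 := by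
    intro z1 _
    have h2 := (dens_hasDerivAt_z1 f g z1 0 z3 z4 hD).neg
    rw [neg_neg] at h2
    exact h2
  have h1 := integral_Ioi_of_hasDerivAt_of_tendsto' (a := 0) hder hint.integrableOn hlim
  rw [integral_Ici_eq_integral_Ioi, h1]
  ring

/-- **[RSD-C8c]** Fubini (`setIntegral_prod` twice, `Orth` is a product set; integrability of
`dens'` on `Orth` and of the inner function on `Ici 0 ×ˢ Ici 0` for fixed `(z₃, z₄)` from
`dens_bound`). -/
theorem integral_dens' (f : P5) (g : ℝ) (h : f.PD g) :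
    ∫ w in P5.Orth, f.dens' g w.2.1 w.2.2 w.1.1 w.1.2
      = ∫ v in (Set.Ici (0 : ℝ) ×ˢ Set.Ici (0 : ℝ)), f.dens g 0 0 v.1 v.2 := by
  obtain ⟨K, hK, hb⟩ := c8_bounds f g h
  have hint : Integrable (fun w : (ℝ × ℝ) × (ℝ × ℝ) => f.dens' g w.2.1 w.2.2 w.1.1 w.1.2) := by
    obtain ⟨ε, hε, K, hK, hb⟩ := dens_bound f g h
    obtain ⟨-, hb⟩ := hb g (by simpa using hε)
    refine Integrable.mono' (gauss_integrable.const_mul K)
      (dens_continuous f g).2.aestronglyMeasurable ?_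
    refine Filter.Eventually.of_forall (fun w => ?_)
    rw [Real.norm_eq_abs]
    exact (hb _ _ _ _).2.2.1
  have hint2 : ∀ z3 z4 : ℝ, Integrable (fun u : ℝ × ℝ => f.dens' g u.1 u.2 z3 z4) := by
    intro z3 z4
    have hc : Continuous (fun u : ℝ × ℝ => f.dens' g u.1 u.2 z3 z4) := by
      have h1 : Continuous (fun u : ℝ × ℝ => (((z3, z4), u) : (ℝ × ℝ) × (ℝ × ℝ))) := by fun_prop
      have h2 := (dens_continuous f g).2.comp h1
      simp only [Function.comp_def] at h2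
      exact h2
    have hg : Integrable (fun u : ℝ × ℝ => K * (Real.exp (-(1 / 16) * u.1 ^ 2) *
        Real.exp (-(1 / 16) * u.2 ^ 2))) := (c8_gauss.mul_prod c8_gauss).const_mul K
    refine Integrable.mono' hg hc.aestronglyMeasurable ?_
    refine Filter.Eventually.of_forall (fun u => ?_)
    rw [Real.norm_eq_abs]
    exact (hb _ _ _ _).2.1
  unfold P5.Orth
  rw [Measure.volume_eq_prod, setIntegral_prod _ (by
    rw [← Measure.volume_eq_prod]; exact hint.integrableOn)]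
  apply setIntegral_congr_fun (measurableSet_Ici.prod measurableSet_Ici)
  rintro ⟨z3, z4⟩ -
  simp only
  rw [Measure.volume_eq_prod, setIntegral_prod _ (by
    rw [← Measure.volume_eq_prod]; exact (hint2 z3 z4).integrableOn)]
  rw [← integral_z1 f g h z3 z4]
  apply setIntegral_congr_fun measurableSet_Ici
  intro z1 _
  exact integral_z2 f g h z1 z3 z4

end Pool.Agent.RSD
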