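import Mathlib

set_option autoImplicit false

/-! # [RSD-C4] Gaussian integral over a quadrant -/

open Real MeasureTheory

namespace Pool.Agent.RSD


theorem c4_pos (α β γ : ℝ) (hγ : 0 < γ) (hΔ : 0 < α * γ - β ^ 2) (t : ℝ) : 0 < α + 2 * β * t + γ * t ^ 2 := by
  have h1 : γ * (α + 2 * β * t + γ * t ^ 2) = (γ * t + β) ^ 2 + (α * γ - β ^ 2) := by ring
  have h2 : 0 < γ * (α + 2 * β * t + γ * t ^ 2) := by
    rw [h1]
    positivity
  exact (mul_pos_iff_of_pos_left hγ).1 h2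

theorem c4_deriv (α β γ : ℝ) (hγ : 0 < γ) (hΔ : 0 < α * γ - β ^ 2) (t : ℝ) :
    HasDerivAt (fun t : ℝ => Real.arctan ((γ * t + β) / √(α * γ - β ^ 2)) / √(α * γ - β ^ 2))
      (1 / (α + 2 * β * t + γ * t ^ 2)) t := by
  have hs : 0 < √(α * γ - β ^ 2) := Real.sqrt_pos.2 hΔ
  have hs2 : √(α * γ - β ^ 2) ^ 2 = α * γ - β ^ 2 := Real.sq_sqrt hΔ.le
  have hq := c4_pos α β γ hγ hΔ t
  have h1 : HasDerivAt (fun t : ℝ => (γ * t + β) / √(α * γ - β ^ 2)) (γ / √(α * γ - β ^ 2)) t := by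
    have := (((hasDerivAt_id t).const_mul γ).add_const β).div_const (√(α * γ - β ^ 2))
    simpa using this
  have h2 := h1.arctan.div_const (√(α * γ - β ^ 2))
  refine h2.congr_deriv ?_
  have h3 : 1 + ((γ * t + β) / √(α * γ - β ^ 2)) ^ 2 = γ * (α + 2 * β * t + γ * t ^ 2) / √(α * γ - β ^ 2) ^ 2 := by
    rw [div_pow, eq_div_iff (pow_ne_zero 2 hs.ne'), add_mul, div_mul_cancel₀ _ (pow_ne_zero 2 hs.ne'), hs2]
    ring
  rw [h3]
  clear h1 h2 h3 hs2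
  generalize √(α * γ - β ^ 2) = s at hs ⊢
  field_simp

theorem c4_lim (β γ s : ℝ) (hγ : 0 < γ) (hs : 0 < s) :
    Filter.Tendsto (fun t : ℝ => Real.arctan ((γ * t + β) / s) / s) Filter.atTop (nhds ((π / 2) / s)) := by
  apply Filter.Tendsto.div_const
  have h1 : Filter.Tendsto (fun t : ℝ => (γ * t + β) / s) Filter.atTop Filter.atTop :=
    ((Filter.tendsto_id.const_mul_atTop hγ).atTop_add tendsto_const_nhds).atTop_div_const hs
  exact (Real.tendsto_arctan_atTop.mono_right nhdsWithin_le_nhds).comp h1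

theorem c4_gauss (c : ℝ) (hc : 0 < c) : IntegrableOn (fun x : ℝ => x * Real.exp (-(c * x ^ 2 / 2))) (Set.Ioi 0) ∧
    ∫ x in Set.Ioi (0 : ℝ), x * Real.exp (-(c * x ^ 2 / 2)) = 1 / c := by
  have hd : ∀ x ∈ Set.Ici (0 : ℝ), HasDerivAt (fun x : ℝ => -Real.exp (-(c * x ^ 2 / 2)) / c)
      (x * Real.exp (-(c * x ^ 2 / 2))) x := by
    intro x _
    have h1 : HasDerivAt (fun x : ℝ => -(c * x ^ 2 / 2)) (-(c * x)) x := by
      have := (((hasDerivAt_pow 2 x).const_mul c).div_const 2).neg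
      refine this.congr_deriv ?_
      push_cast
      ring
    have h2 := (h1.exp.neg).div_const c
    refine h2.congr_deriv ?_
    field_simp
  have hp : ∀ x ∈ Set.Ioi (0 : ℝ), 0 ≤ x * Real.exp (-(c * x ^ 2 / 2)) := fun x hx =>
    mul_nonneg (le_of_lt hx) (Real.exp_pos _).le
  have hl : Filter.Tendsto (fun x : ℝ => -Real.exp (-(c * x ^ 2 / 2)) / c) Filter.atTop (nhds 0) := by
    have h1 : Filter.Tendsto (fun x : ℝ => c * x ^ 2 / 2) Filter.atTop Filter.atTop :=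
      ((Filter.tendsto_pow_atTop (by norm_num)).const_mul_atTop hc).atTop_div_const (by norm_num)
    have h2 : Filter.Tendsto (fun x : ℝ => Real.exp (-(c * x ^ 2 / 2))) Filter.atTop (nhds 0) :=
      Real.tendsto_exp_atBot.comp (Filter.tendsto_neg_atTop_atBot.comp h1)
    have h3 := (h2.neg).div_const c
    simpa using h3
  refine ⟨integrableOn_Ioi_deriv_of_nonneg' hd hp hl, ?_⟩
  rw [integral_Ioi_of_hasDerivAt_of_nonneg' hd hp hl]
  simp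
  field_simp

theorem c4_int1 (α β γ : ℝ) (hγ : 0 < γ) (hΔ : 0 < α * γ - β ^ 2)
    (hI : IntegrableOn (fun t : ℝ => 1 / (α + 2 * β * t + γ * t ^ 2)) (Set.Ioi 0)) :
    Integrable (fun p : ℝ × ℝ => p.1 * Real.exp (-((α + 2 * β * p.2 + γ * p.2 ^ 2) * p.1 ^ 2 / 2)))
      ((volume.restrict (Set.Ioi (0 : ℝ))).prod (volume.restrict (Set.Ioi (0 : ℝ)))) := by
  have hm : AEStronglyMeasurable (fun p : ℝ × ℝ => p.1 * Real.exp (-((α + 2 * β * p.2 + γ * p.2 ^ 2) * p.1 ^ 2 / 2)))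
      ((volume.restrict (Set.Ioi (0 : ℝ))).prod (volume.restrict (Set.Ioi (0 : ℝ)))) := by
    apply Continuous.aestronglyMeasurable
    fun_prop
  rw [integrable_prod_iff' hm]
  constructor
  · exact Filter.Eventually.of_forall fun t => (c4_gauss _ (c4_pos α β γ hγ hΔ t)).1
  · refine hI.congr (Filter.Eventually.of_forall fun t => ?_)
    show 1 / (α + 2 * β * t + γ * t ^ 2) = ∫ x in Set.Ioi (0 : ℝ), ‖x * Real.exp (-((α + 2 * β * t + γ * t ^ 2) * x ^ 2 / 2))‖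
    rw [← (c4_gauss _ (c4_pos α β γ hγ hΔ t)).2]
    refine setIntegral_congr_fun measurableSet_Ioi fun x hx => ?_
    rw [Real.norm_eq_abs, abs_of_nonneg (mul_nonneg (le_of_lt hx) (Real.exp_pos _).le)]

theorem c4_sub (α β γ : ℝ) (x : ℝ) (hx : 0 < x) :
    ∫ y in Set.Ioi (0 : ℝ), Real.exp (-((α * x ^ 2 + 2 * β * x * y + γ * y ^ 2) / 2)) =
      ∫ t in Set.Ioi (0 : ℝ), x * Real.exp (-((α + 2 * β * t + γ * t ^ 2) * x ^ 2 / 2)) := by
  have h1 := integral_comp_mul_left_Ioi (fun y : ℝ => Real.exp (-((α * x ^ 2 + 2 * β * x * y + γ * y ^ 2) / 2))) 0 hx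
  rw [mul_zero] at h1
  rw [integral_const_mul]
  have h2 : ∫ t in Set.Ioi (0 : ℝ), Real.exp (-((α + 2 * β * t + γ * t ^ 2) * x ^ 2 / 2)) =
      ∫ t in Set.Ioi (0 : ℝ), Real.exp (-((α * x ^ 2 + 2 * β * x * (x * t) + γ * (x * t) ^ 2) / 2)) := by
    refine setIntegral_congr_fun measurableSet_Ioi fun t _ => ?_
    show Real.exp _ = Real.exp _
    congr 1
    ring
  rw [h2, h1, smul_eq_mul, ← mul_assoc, mul_inv_cancel₀ hx.ne', one_mul]

theorem c4_subint (α β γ : ℝ) (x : ℝ) (hx : 0 < x)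
    (h : IntegrableOn (fun t : ℝ => x * Real.exp (-((α + 2 * β * t + γ * t ^ 2) * x ^ 2 / 2))) (Set.Ioi 0)) :
    IntegrableOn (fun y : ℝ => Real.exp (-((α * x ^ 2 + 2 * β * x * y + γ * y ^ 2) / 2))) (Set.Ioi 0) := by
  have h1 := integrableOn_Ioi_comp_mul_left_iff (fun y : ℝ => Real.exp (-((α * x ^ 2 + 2 * β * x * y + γ * y ^ 2) / 2))) 0 hx
  rw [mul_zero] at h1
  rw [← h1]
  have h2 := h.const_mul x⁻¹
  refine h2.congr (Filter.Eventually.of_forall fun t => ?_)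
  show x⁻¹ * (x * Real.exp (-((α + 2 * β * t + γ * t ^ 2) * x ^ 2 / 2))) = _
  rw [← mul_assoc, inv_mul_cancel₀ hx.ne', one_mul]
  congr 1
  ring

/-- **[RSD-C4a]** `∫_0^∞ dt / (α + 2βt + γt²) = (π/2 - arctan(β/√Δ))/√Δ`, `Δ = αγ - β² > 0`:
antiderivative `arctan((γt + β)/√Δ)/√Δ`
(`integral_Ioi_of_hasDerivAt_of_nonneg'` / `..._of_tendsto`). -/
theorem integral_inv_quad (α β γ : ℝ) (hγ : 0 < γ) (hΔ : 0 < α * γ - β ^ 2) :
    IntegrableOn (fun t : ℝ => 1 / (α + 2 * β * t + γ * t ^ 2)) (Set.Ioi 0) ∧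
    ∫ t in Set.Ioi (0 : ℝ), 1 / (α + 2 * β * t + γ * t ^ 2)
      = (π / 2 - Real.arctan (β / √(α * γ - β ^ 2))) / √(α * γ - β ^ 2) := by
  have hs : 0 < √(α * γ - β ^ 2) := Real.sqrt_pos.2 hΔ
  have hd := fun t (_ : t ∈ Set.Ici (0 : ℝ)) => c4_deriv α β γ hγ hΔ t
  have hp : ∀ t ∈ Set.Ioi (0 : ℝ), 0 ≤ 1 / (α + 2 * β * t + γ * t ^ 2) := fun t _ =>
    one_div_nonneg.2 (c4_pos α β γ hγ hΔ t).le
  have hl := c4_lim β γ _ hγ hs
  refine ⟨integrableOn_Ioi_deriv_of_nonneg' hd hp hl, ?_⟩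
  rw [integral_Ioi_of_hasDerivAt_of_nonneg' hd hp hl, mul_zero, zero_add]
  ring

/-- **[RSD-C4b]** `∫∫_{x,y ≥ 0} exp(-(αx² + 2βxy + γy²)/2) = (π/2 - arctan(β/√Δ))/√Δ`.

Proof. The integrand is integrable on `ℝ²` (form positive definite:
`αx²+2βxy+γy² ≥ κ(x²+y²)` with `κ = Δ/(α+γ)`), so by Fubini it is `∫_{x>0} ∫_{y>0}`; substitute
`y = x t` in the inner integral (`integral_comp_mul_left_Ioi`):
`∫_{x>0}∫_{t>0} x exp(-x²(α+2βt+γt²)/2)`; swap (nonnegative integrand, Tonelli) and use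
`∫_{x>0} x exp(-κx²/2) dx = 1/κ` (`integral_mul_cexp_neg_mul_sq`-type or FTC); then C4a. -/
theorem gauss_quadrant (α β γ : ℝ) (hα : 0 < α) (hγ : 0 < γ) (hΔ : 0 < α * γ - β ^ 2) :
    ∫ w in (Set.Ici (0 : ℝ) ×ˢ Set.Ici (0 : ℝ)),
        Real.exp (-((α * w.1 ^ 2 + 2 * β * w.1 * w.2 + γ * w.2 ^ 2) / 2))
      = (π / 2 - Real.arctan (β / √(α * γ - β ^ 2))) / √(α * γ - β ^ 2) := by
  obtain ⟨hI, hv⟩ := integral_inv_quad α β γ hγ hΔ
  have h1 := c4_int1 α β γ hγ hΔ hI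
  have hm : AEStronglyMeasurable (fun p : ℝ × ℝ => Real.exp (-((α * p.1 ^ 2 + 2 * β * p.1 * p.2 + γ * p.2 ^ 2) / 2)))
      ((volume.restrict (Set.Ioi (0 : ℝ))).prod (volume.restrict (Set.Ioi (0 : ℝ)))) := by
    apply Continuous.aestronglyMeasurable
    fun_prop
  have h2 := (integrable_prod_iff h1.1).1 h1
  have hx : ∀ᵐ x : ℝ ∂(volume.restrict (Set.Ioi (0 : ℝ))), x ∈ Set.Ioi (0 : ℝ) := ae_restrict_mem measurableSet_Ioi
  have h3 : Integrable (fun p : ℝ × ℝ => Real.exp (-((α * p.1 ^ 2 + 2 * β * p.1 * p.2 + γ * p.2 ^ 2) / 2)))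
      ((volume.restrict (Set.Ioi (0 : ℝ))).prod (volume.restrict (Set.Ioi (0 : ℝ)))) := by
    rw [integrable_prod_iff hm]
    constructor
    · filter_upwards [hx, h2.1] with x hx1 hx2
      exact c4_subint α β γ x hx1 hx2
    · refine h2.2.congr ?_
      filter_upwards [hx] with x hx1
      have h4 : ∫ y in Set.Ioi (0 : ℝ), ‖Real.exp (-((α * x ^ 2 + 2 * β * x * y + γ * y ^ 2) / 2))‖ =
          ∫ y in Set.Ioi (0 : ℝ), Real.exp (-((α * x ^ 2 + 2 * β * x * y + γ * y ^ 2) / 2)) :=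
        setIntegral_congr_fun measurableSet_Ioi fun y _ => by
          show ‖Real.exp _‖ = Real.exp _
          rw [Real.norm_eq_abs, abs_of_pos (Real.exp_pos _)]
      have h5 : ∫ t in Set.Ioi (0 : ℝ), ‖x * Real.exp (-((α + 2 * β * t + γ * t ^ 2) * x ^ 2 / 2))‖ =
          ∫ t in Set.Ioi (0 : ℝ), x * Real.exp (-((α + 2 * β * t + γ * t ^ 2) * x ^ 2 / 2)) :=
        setIntegral_congr_fun measurableSet_Ioi fun y _ => by
          show ‖x * Real.exp _‖ = x * Real.exp _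
          rw [Real.norm_eq_abs, abs_of_pos (mul_pos hx1 (Real.exp_pos _))]
      show ∫ t in Set.Ioi (0 : ℝ), ‖x * Real.exp (-((α + 2 * β * t + γ * t ^ 2) * x ^ 2 / 2))‖ =
        ∫ y in Set.Ioi (0 : ℝ), ‖Real.exp (-((α * x ^ 2 + 2 * β * x * y + γ * y ^ 2) / 2))‖
      rw [h4, h5, c4_sub α β γ x hx1]
  have h6 : (volume : Measure (ℝ × ℝ)).restrict (Set.Ici (0 : ℝ) ×ˢ Set.Ici (0 : ℝ)) =
      (volume.restrict (Set.Ioi (0 : ℝ))).prod (volume.restrict (Set.Ioi (0 : ℝ))) := by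
    rw [Measure.volume_eq_prod, ← Measure.prod_restrict, restrict_Ioi_eq_restrict_Ici]
  rw [h6, integral_prod _ h3, ← hv]
  have h7 : ∫ x in Set.Ioi (0 : ℝ), ∫ y in Set.Ioi (0 : ℝ), Real.exp (-((α * x ^ 2 + 2 * β * x * y + γ * y ^ 2) / 2)) =
      ∫ x in Set.Ioi (0 : ℝ), ∫ t in Set.Ioi (0 : ℝ), x * Real.exp (-((α + 2 * β * t + γ * t ^ 2) * x ^ 2 / 2)) :=
    setIntegral_congr_fun measurableSet_Ioi fun x hx1 => c4_sub α β γ x hx1
  show ∫ x in Set.Ioi (0 : ℝ), ∫ y in Set.Ioi (0 : ℝ), Real.exp (-((α * x ^ 2 + 2 * β * x * y + γ * y ^ 2) / 2)) = _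
  rw [h7, integral_integral_swap h1]
  refine setIntegral_congr_fun measurableSet_Ioi fun t _ => ?_
  exact (c4_gauss _ (c4_pos α β γ hγ hΔ t)).2

end Pool.Agent.RSD
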