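import Mathlib
import Pool.Agent.RSD.Defs
import Pool.Agent.RSD.C.C4

set_option autoImplicit false

/-! # [RSD-C9] the edge length -/

open Real MeasureTheory

namespace Pool.Agent.RSD

/-- **[RSD-C9]** `∫∫_{z₃,z₄ ≥ 0} dens(0,0,z₃,z₄) = Fp/√(1 - g²)`.

Proof. `dens g 0 0 z₃ z₄ = exp(-(α z₃² + 2β z₃z₄ + γ z₄²)/2)/(4π²√D)` with `α = A/D`, `β = C/D`,
`γ = B/D`; `αγ - β² = (AB - C²)/D² = (1-g²)/D` (identity `A B - C² = (1 - g²) D`, `ring`).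
`gauss_quadrant`; then `β/√((1-g²)/D) = C/√((1-g²)D)` and
`√D √((1-g²)/D) = √(1-g²)`. -/
theorem integral_dens00 (f : P5) (g : ℝ) (hg : g ^ 2 < 1) (hA : 0 < f.A g) (hB : 0 < f.B g)
    (hD : 0 < f.D g) :
    ∫ v in (Set.Ici (0 : ℝ) ×ˢ Set.Ici (0 : ℝ)), f.dens g 0 0 v.1 v.2
      = f.Fp g / √(1 - g ^ 2) := by
  have hg1 : 0 < 1 - g ^ 2 := by linarith
  have hid : f.A g * f.B g - f.C g ^ 2 = (1 - g ^ 2) * f.D g := by
    simp only [P5.A, P5.B, P5.C, P5.D, qA, qB, qC, qD]; ring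
  have hΔ : f.A g / f.D g * (f.B g / f.D g) - (f.C g / f.D g) ^ 2 = (1 - g ^ 2) / f.D g := by
    have : f.A g / f.D g * (f.B g / f.D g) - (f.C g / f.D g) ^ 2
        = (f.A g * f.B g - f.C g ^ 2) / (f.D g) ^ 2 := by
      field_simp
    rw [this, hid]
    field_simp
  have hΔ0 : 0 < (1 - g ^ 2) / f.D g := div_pos hg1 hD
  have hq := gauss_quadrant (f.A g / f.D g) (f.C g / f.D g) (f.B g / f.D g) (div_pos hA hD)
    (div_pos hB hD) (by rw [hΔ]; exact hΔ0)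
  rw [hΔ] at hq
  have hsD : 0 < √(f.D g) := Real.sqrt_pos.mpr hD
  have hs1 : 0 < √(1 - g ^ 2) := Real.sqrt_pos.mpr hg1
  have hsDD : √(f.D g) * √(f.D g) = f.D g := Real.mul_self_sqrt hD.le
  have hsq : √((1 - g ^ 2) / f.D g) = √(1 - g ^ 2) / √(f.D g) := Real.sqrt_div hg1.le _
  have hsq2 : √((1 - g ^ 2) * f.D g) = √(1 - g ^ 2) * √(f.D g) := Real.sqrt_mul hg1.le _
  have harg : f.C g / f.D g / (√(1 - g ^ 2) / √(f.D g)) = f.C g / (√(1 - g ^ 2) * √(f.D g)) := by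
    have : f.C g / f.D g = f.C g / (√(f.D g) * √(f.D g)) := by rw [hsDD]
    rw [this]
    field_simp
  rw [hsq, harg] at hq
  have hI : ∫ v in (Set.Ici (0 : ℝ) ×ˢ Set.Ici (0 : ℝ)), f.dens g 0 0 v.1 v.2
      = (1 / (4 * π ^ 2 * √(f.D g))) * ∫ w in (Set.Ici (0 : ℝ) ×ˢ Set.Ici (0 : ℝ)),
        Real.exp (-((f.A g / f.D g * w.1 ^ 2 + 2 * (f.C g / f.D g) * w.1 * w.2
          + f.B g / f.D g * w.2 ^ 2) / 2)) := by
    rw [← integral_const_mul]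
    refine integral_congr_ae (Filter.Eventually.of_forall (fun w => ?_))
    simp only [P5.dens, P5.Q]
    have : f.Q g 0 0 w.1 w.2 / (2 * f.D g) = (f.A g / f.D g * w.1 ^ 2
        + 2 * (f.C g / f.D g) * w.1 * w.2 + f.B g / f.D g * w.2 ^ 2) / 2 := by
      simp only [P5.Q]
      field_simp
      ring
    simp only [P5.Q] at this
    rw [this]
    ring
  rw [hI, hq]
  unfold P5.Fp
  rw [hsq2]
  field_simp

end Pool.Agent.RSD
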