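import Mathlib
import Pool.Agent.RSD.Defs
import Pool.Agent.RSD.C.C7
import Pool.Agent.RSD.C.C8
import Pool.Agent.RSD.C.C9
import Pool.Agent.RSD.D.D0

set_option autoImplicit false

/-! # [RSD-C10] Schläfli's formula in one angle -/

open Real

namespace Pool.Agent.RSD

/-- **[RSD-C10]** `d/dθ Fr(-cos θ) = Fp(-cos θ)`.

Proof. `Fr_hasDerivAt_g`, `integral_dens'`, `integral_dens00` (hypotheses from `pd_ineq`): the
derivative in `g` is `Fp/√(1-g²)`; chain rule with `d/dθ (-cos θ) = sin θ = √(1 - cos² θ)`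
(`0 < θ < π`). -/
theorem Fr_hasDerivAt (f : P5) (θ : ℝ) (h0 : 0 < θ) (hπ : θ < π) (h : f.PD (-Real.cos θ)) :
    HasDerivAt (fun t => f.Fr (-Real.cos t)) (f.Fp (-Real.cos θ)) θ := by
  obtain ⟨h1, _, _, _, _, _, _, _, hA, hB⟩ := pd_ineq f _ h
  have hg := Fr_hasDerivAt_g f (-Real.cos θ) h
  rw [integral_dens' f _ h, integral_dens00 f _ h1 hA hB h.2.2] at hg
  have hc : HasDerivAt (fun t => -Real.cos t) (Real.sin θ) θ := by
    have := (Real.hasDerivAt_cos θ).neg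
    rwa [neg_neg] at this
  have hs : 0 < Real.sin θ := Real.sin_pos_of_pos_of_lt_pi h0 hπ
  have hsq : √(1 - (-Real.cos θ) ^ 2) = Real.sin θ := by
    rw [neg_sq, ← Real.sin_sq, Real.sqrt_sq hs.le]
  have hcomp := hg.comp θ hc
  rw [hsq, div_mul_cancel₀ _ hs.ne'] at hcomp
  exact hcomp

end Pool.Agent.RSD
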