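import Mathlib
import Pool.Agent.RSD.Defs

set_option autoImplicit false

/-! # [RSD-C11] the second derivative -/

open Real

namespace Pool.Agent.RSD

theorem c11_quad (α β γ t : ℝ) :
    HasDerivAt (fun t => α + β * t + γ * t ^ 2) (β + 2 * γ * t) t := by
  have h1 : HasDerivAt (fun t : ℝ => β * t) β t := by
    simpa using (hasDerivAt_id t).const_mul β
  have h2 : HasDerivAt (fun t : ℝ => γ * t ^ 2) (γ * (2 * t)) t := by
    simpa using (hasDerivAt_pow 2 t).const_mul γ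
  have h3 := (h1.const_add α).add h2
  refine h3.congr_deriv ?_
  ring

/-- **[RSD-C11]** `d/dθ Fp(-cos θ) = Fpp(-cos θ)`.

Proof. With `E = (1-g²)D = AB - C²` (`ring`), `d/dg arctan(C/√E) =
(1/(1 + C²/E)) (C' E - C E'/2)/E^{3/2} = (C'E - CE'/2)/(AB √E)` and
`2C'E - CE' = 2C'(AB - C²) - C((AB)' - 2CC') = -N`; so `d/dg Fp = N/(2 AB √E)/(4π²)`, and
`d/dθ` multiplies by `sin θ = √(1-g²)`: `N/(8π² AB √D)`, as `√E = √(1-g²)√D`. -/
theorem Fp_hasDerivAt (f : P5) (θ : ℝ) (h0 : 0 < θ) (hπ : θ < π)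
    (hA : 0 < f.A (-Real.cos θ)) (hB : 0 < f.B (-Real.cos θ)) (hD : 0 < f.D (-Real.cos θ)) :
    HasDerivAt (fun t => f.Fp (-Real.cos t)) (f.Fpp (-Real.cos θ)) θ := by
  set g : ℝ := -Real.cos θ with hg
  have hs : 0 < Real.sin θ := Real.sin_pos_of_pos_of_lt_pi h0 hπ
  have hg1 : 1 - g ^ 2 = Real.sin θ ^ 2 := by rw [hg, neg_sq, Real.sin_sq]
  have hg0 : 0 < 1 - g ^ 2 := by rw [hg1]; positivity
  have hCd : HasDerivAt (fun t => f.C t) (qC' f.a f.b f.c f.d f.e g) g := by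
    have h1 := c11_quad (f.C 0) (-(f.b * f.c + f.a * f.d)) f.e g
    have h2 : (fun t => f.C t) = fun t => f.C 0 + (-(f.b * f.c + f.a * f.d)) * t + f.e * t ^ 2 := by
      funext t
      simp only [P5.C, qC]; ring
    rw [h2]
    refine h1.congr_deriv ?_
    rw [qC']; ring
  have hDd : HasDerivAt (fun t => f.D t) (2 * q12 f.a f.b f.c f.d f.e g) g := by
    have h1 := c11_quad (f.D 0) (2 * (f.a * f.c + f.b * f.d - f.b * f.c * f.e - f.a * f.d * f.e))
      (-(1 - f.e ^ 2)) g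
    have h2 : (fun t => f.D t) = fun t => f.D 0
        + (2 * (f.a * f.c + f.b * f.d - f.b * f.c * f.e - f.a * f.d * f.e)) * t
        + (-(1 - f.e ^ 2)) * t ^ 2 := by
      funext t
      simp only [P5.D, qD]; ring
    rw [h2]
    refine h1.congr_deriv ?_
    rw [q12]; ring
  have h1g : HasDerivAt (fun t : ℝ => 1 - t ^ 2) (-(2 * g)) g := by
    have h1 := c11_quad 1 0 (-1) g
    have h2 : (fun t : ℝ => 1 - t ^ 2) = fun t => 1 + 0 * t + (-1) * t ^ 2 := by
      funext t; ring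
    rw [h2]
    refine h1.congr_deriv ?_
    ring
  set E : ℝ := (1 - g ^ 2) * f.D g with hE
  have hE0 : 0 < E := mul_pos hg0 hD
  set E' : ℝ := -(2 * g) * f.D g + (1 - g ^ 2) * (2 * q12 f.a f.b f.c f.d f.e g) with hE'
  have hEd : HasDerivAt (fun t => (1 - t ^ 2) * f.D t) E' g := h1g.mul hDd
  have hEid : E = f.A g * f.B g - f.C g ^ 2 := by
    rw [hE]; simp only [P5.A, P5.B, P5.C, P5.D, qA, qB, qC, qD]; ring
  have hN : f.N g = -(2 * qC' f.a f.b f.c f.d f.e g * E - f.C g * E') := by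
    rw [hE, hE']
    simp only [P5.N, P5.C, P5.D, qN, qA, qB, qC, qD, qA', qB', qC', q12]; ring
  set s : ℝ := √E with hsE
  have hs0 : 0 < s := Real.sqrt_pos.mpr hE0
  have hss : s ^ 2 = E := Real.sq_sqrt hE0.le
  have hsq : HasDerivAt (fun t => √((1 - t ^ 2) * f.D t)) (E' / (2 * s)) g := hEd.sqrt hE0.ne'
  have hquot : HasDerivAt (fun t => f.C t / √((1 - t ^ 2) * f.D t))
      ((qC' f.a f.b f.c f.d f.e g * s - f.C g * (E' / (2 * s))) / s ^ 2) g :=
    hCd.div hsq hs0.ne'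
  have hFp : HasDerivAt f.Fp (-(1 / (1 + (f.C g / s) ^ 2)
      * ((qC' f.a f.b f.c f.d f.e g * s - f.C g * (E' / (2 * s))) / s ^ 2)) / (4 * π ^ 2)) g := by
    exact ((hquot.arctan.const_sub (π / 2)).div_const _)
  have hc : HasDerivAt (fun t => -Real.cos t) (Real.sin θ) θ := by
    have := (Real.hasDerivAt_cos θ).neg
    rwa [neg_neg] at this
  have hcomp := hFp.comp θ hc
  refine hcomp.congr_deriv ?_
  have hw : s = Real.sin θ * √(f.D g) := by
    rw [hsE, hE, hg1, Real.sqrt_mul (by positivity), Real.sqrt_sq hs.le]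
  set w : ℝ := √(f.D g) with hwdef
  have hw0 : 0 < w := Real.sqrt_pos.mpr hD
  have hAB : f.A g * f.B g = s ^ 2 + f.C g ^ 2 := by rw [hss, hEid]; ring
  unfold P5.Fpp
  rw [← hwdef, hAB, hN, ← hss]
  have hpos : 0 < s ^ 2 + f.C g ^ 2 := by positivity
  have hsin : Real.sin θ = s / w := by rw [hw]; field_simp
  rw [hsin]
  field_simp
  ring

end Pool.Agent.RSD
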