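import Mathlib
import Pool.Agent.RSD.Defs

set_option autoImplicit false

/-! # [RSD-C2] linear change of variables -/

open Real MeasureTheory

namespace Pool.Agent.RSD


/-- the matrix of rows -/
def c2_M (n : Fin 4 → E4) : Matrix (Fin 4) (Fin 4) ℝ := fun i j => n i j

/-- the reindexing -/
def c2_perm : Fin 2 ⊕ Fin 2 ≃ Fin 4 := (Equiv.sumComm (Fin 2) (Fin 2)).trans finSumFinEquiv

/-- `(x₀, x₁, x₂, x₃) ↦ ((x₂, x₃), (x₀, x₁))` -/
def c2_e : (Fin 4 → ℝ) ≃ᵐ (ℝ × ℝ) × (ℝ × ℝ) :=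
  ((MeasurableEquiv.piCongrLeft (fun _ : Fin 4 => ℝ) c2_perm).symm.trans
    (MeasurableEquiv.sumPiEquivProdPi (fun _ : Fin 2 ⊕ Fin 2 => ℝ))).trans
    (MeasurableEquiv.prodCongr MeasurableEquiv.finTwoArrow MeasurableEquiv.finTwoArrow)

theorem c2_e_apply (y : Fin 4 → ℝ) : c2_e y = ((y 2, y 3), (y 0, y 1)) := rfl

theorem c2_e_mp : MeasurePreserving c2_e volume volume := by
  have h1 := (volume_measurePreserving_piCongrLeft (fun _ : Fin 4 => ℝ) c2_perm).symm
  have h2 := volume_measurePreserving_sumPiEquivProdPi (fun _ : Fin 2 ⊕ Fin 2 => ℝ)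
  have h3 : MeasurePreserving (Prod.map (MeasurableEquiv.finTwoArrow (α := ℝ)) (MeasurableEquiv.finTwoArrow (α := ℝ)))
      (volume.prod volume) (volume.prod volume) :=
    (volume_preserving_finTwoArrow ℝ).prod (volume_preserving_finTwoArrow ℝ)
  exact h3.comp (h2.comp h1)

theorem c2_inner (x y : E4) : inner ℝ x y = ∑ j, x j * y j := by
  rw [PiLp.inner_apply]
  refine Finset.sum_congr rfl fun j _ => ?_
  simp [mul_comm]

theorem c2_mulVec (n : Fin 4 → E4) (x : E4) (i : Fin 4) : (c2_M n).mulVec (fun j => x j) i = inner ℝ (n i) x := by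
  rw [c2_inner]
  rfl

theorem c2_gram (f : P5) (g : ℝ) (n : Fin 4 → E4) (h : IsGram f g n) :
    c2_M n * (c2_M n).transpose = !![1, g, f.a, f.b; g, 1, f.c, f.d; f.a, f.c, 1, f.e; f.b, f.d, f.e, 1] := by
  have hij : ∀ i j, (c2_M n * (c2_M n).transpose) i j = inner ℝ (n i) (n j) := by
    intro i j
    rw [c2_inner]
    rfl
  have hii : ∀ i, inner ℝ (n i) (n i) = (1 : ℝ) := by
    intro i
    rw [real_inner_self_eq_norm_sq, h.unit i]
    norm_num
  have h10 : inner ℝ (n 1) (n 0) = g := by rw [real_inner_comm, h.h01]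
  have h20 : inner ℝ (n 2) (n 0) = f.a := by rw [real_inner_comm, h.h02]
  have h30 : inner ℝ (n 3) (n 0) = f.b := by rw [real_inner_comm, h.h03]
  have h21 : inner ℝ (n 2) (n 1) = f.c := by rw [real_inner_comm, h.h12]
  have h31 : inner ℝ (n 3) (n 1) = f.d := by rw [real_inner_comm, h.h13]
  have h32 : inner ℝ (n 3) (n 2) = f.e := by rw [real_inner_comm, h.h23]
  ext i j
  rw [hij]
  fin_cases i <;> fin_cases j <;>
    simp [h.unit, h10, h20, h30, h21, h31, h32, h.h01, h.h02, h.h03, h.h12, h.h13, h.h23]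

theorem c2_det_sq (f : P5) (g : ℝ) (n : Fin 4 → E4) (h : IsGram f g n) : (c2_M n).det ^ 2 = f.D g := by
  have h1 := congrArg Matrix.det (c2_gram f g n h)
  rw [Matrix.det_mul, Matrix.det_transpose, ← sq] at h1
  rw [h1, P5.D, qD]
  simp [Matrix.det_succ_row_zero, Fin.sum_univ_succ, Fin.succAbove]
  ring

theorem c2_det_ne (n : Fin 4 → E4) (hn : LinearIndependent ℝ n) : (c2_M n).det ≠ 0 := by
  have h1 : LinearIndependent ℝ (c2_M n).row := by
    have h2 := hn.map' (WithLp.linearEquiv 2 ℝ (Fin 4 → ℝ)).toLinearMap (LinearEquiv.ker _)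
    exact h2
  exact ((Matrix.isUnit_iff_isUnit_det _).1 (Matrix.linearIndependent_rows_iff_isUnit.1 h1)).ne_zero

theorem c2_lin (M : Matrix (Fin 4) (Fin 4) ℝ) (hM : M.det ≠ 0) (Ψ : (Fin 4 → ℝ) → ℝ) :
    ∫ x, Ψ (M.mulVec x) = |M.det⁻¹| * ∫ y, Ψ y := by
  have h0 : LinearMap.det (Matrix.toLin' M) ≠ 0 := by rwa [LinearMap.det_toLin']
  let e := (LinearMap.equivOfDetNeZero (Matrix.toLin' M) h0).toContinuousLinearEquiv
  have he : ∀ x, e x = M.mulVec x := fun x => rfl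
  have h1 := (e.toHomeomorph.measurableEmbedding).integral_map (μ := volume) Ψ
  have h2 : Measure.map (e.toHomeomorph) volume = ENNReal.ofReal |M.det⁻¹| • (volume : Measure (Fin 4 → ℝ)) :=
    Real.map_matrix_volume_pi_eq_smul_volume_pi hM
  rw [h2, integral_smul_measure, ENNReal.toReal_ofReal (abs_nonneg _), smul_eq_mul] at h1
  rw [h1]
  rfl

/-- **[RSD-C2]** For linearly independent unit vectors with Gram data `(f, g)` and measurable
`φ : (ℝ×ℝ)×(ℝ×ℝ) → ℝ`, the substitution `w = ((⟪n₂,x⟫, ⟪n₃,x⟫), (⟪n₀,x⟫, ⟪n₁,x⟫))` has Jacobian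
`√D`:  `∫_{x ∈ cone n} φ(w(x)) dx = (1/√D) ∫_{Orth} φ(w) dw`.

Proof. Identify `E4` with `Fin 4 → ℝ` (`EuclideanSpace.volume_preserving_symm_measurableEquiv_toLp`
or the current name), let `M i j = n i j` (matrix of rows); `M Mᵀ` is the Gram matrix, so
`(det M)² = f.D g` (expand the 4 × 4 determinant of
`!![1,g,a,b; g,1,c,d; a,c,1,e; b,d,e,1]` with `Matrix.det_succ_row_zero`, `Fin.sum_univ_succ`,
`ring`), `det M ≠ 0` by linear independence; `Real.map_matrix_volume_pi_eq_smul_volume_pi`.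
`(Fin 4 → ℝ) ≃ᵐ (ℝ×ℝ)×(ℝ×ℝ)` is measure preserving (`volume_preserving_finTwoArrow`,
`MeasurableEquiv.piFinSuccAbove`, or write the linear map to `(ℝ×ℝ)×(ℝ×ℝ)` directly; any route).
`x ∈ cone n ↔ w(x) ∈ Orth`. -/
theorem change_var (f : P5) (g : ℝ) (n : Fin 4 → E4) (h : IsGram f g n)
    (hn : LinearIndependent ℝ n) (φ : (ℝ × ℝ) × (ℝ × ℝ) → ℝ) :
    ∫ x in cone n, φ ((inner ℝ (n 2) x, inner ℝ (n 3) x), (inner ℝ (n 0) x, inner ℝ (n 1) x))
      = (1 / √(f.D g)) * ∫ w in P5.Orth, φ w := by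
  classical
  have hD := c2_det_sq f g n h
  have hdet := c2_det_ne n hn
  have hmc : MeasurableSet (cone n) := by
    have h1 : cone n = ⋂ i : Fin 4, {x : E4 | 0 ≤ inner ℝ (n i) x} := by
      ext x
      simp [cone]
    rw [h1]
    exact MeasurableSet.iInter fun i => measurableSet_le measurable_const (by fun_prop)
  have hmo : MeasurableSet P5.Orth :=
    (measurableSet_Ici.prod measurableSet_Ici).prod (measurableSet_Ici.prod measurableSet_Ici)
  set Ψ : (Fin 4 → ℝ) → ℝ := fun y => P5.Orth.indicator φ (c2_e y) with hΨ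
  have h1 : ∫ x in cone n, φ ((inner ℝ (n 2) x, inner ℝ (n 3) x), (inner ℝ (n 0) x, inner ℝ (n 1) x)) =
      ∫ x : E4, Ψ ((c2_M n).mulVec ((MeasurableEquiv.toLp 2 (Fin 4 → ℝ)).symm x)) := by
    rw [← integral_indicator hmc]
    refine integral_congr_ae (Filter.Eventually.of_forall fun x => ?_)
    have h2 : c2_e ((c2_M n).mulVec ((MeasurableEquiv.toLp 2 (Fin 4 → ℝ)).symm x)) =
        ((inner ℝ (n 2) x, inner ℝ (n 3) x), (inner ℝ (n 0) x, inner ℝ (n 1) x)) := by
      rw [c2_e_apply]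
      have h3 : ∀ i, (c2_M n).mulVec ((MeasurableEquiv.toLp 2 (Fin 4 → ℝ)).symm x) i = inner ℝ (n i) x :=
        fun i => c2_mulVec n x i
      rw [h3, h3, h3, h3]
    show (cone n).indicator _ x = P5.Orth.indicator φ (c2_e ((c2_M n).mulVec ((MeasurableEquiv.toLp 2 (Fin 4 → ℝ)).symm x)))
    rw [h2]
    have h4 : x ∈ cone n ↔ ((inner ℝ (n 2) x, inner ℝ (n 3) x), (inner ℝ (n 0) x, inner ℝ (n 1) x)) ∈ P5.Orth := by
      simp only [cone, P5.Orth, Set.mem_prod, Set.mem_Ici, Set.mem_ofPred_eq]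
      constructor
      · intro h
        exact ⟨⟨h 2, h 3⟩, h 0, h 1⟩
      · rintro ⟨⟨a2, a3⟩, a0, a1⟩ i
        fin_cases i
        · exact a0
        · exact a1
        · exact a2
        · exact a3
    by_cases hx : x ∈ cone n
    · rw [Set.indicator_of_mem hx, Set.indicator_of_mem (h4.1 hx)]
    · rw [Set.indicator_of_notMem hx, Set.indicator_of_notMem fun h => hx (h4.2 h)]
  rw [h1, (EuclideanSpace.volume_preserving_symm_measurableEquiv_toLp (Fin 4)).integral_comp'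
    (fun y => Ψ ((c2_M n).mulVec y)), c2_lin (c2_M n) hdet Ψ]
  have h5 : ∫ y, Ψ y = ∫ w in P5.Orth, φ w := by
    rw [← integral_indicator hmo]
    exact c2_e_mp.integral_comp' (P5.Orth.indicator φ)
  rw [h5]
  congr 1
  rw [abs_inv, ← Real.sqrt_sq_eq_abs, hD, one_div]

/-- the cone is measurable (closed) -/
theorem measurableSet_cone (n : Fin 4 → E4) : MeasurableSet (cone n) := by
  have h1 : cone n = ⋂ i : Fin 4, {x : E4 | 0 ≤ inner ℝ (n i) x} := by
    ext x
    simp [cone]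
  rw [h1]
  exact MeasurableSet.iInter fun i => measurableSet_le measurable_const (by fun_prop)

end Pool.Agent.RSD
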