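import Mathlib
import Pool.Agent.RSD.Defs
import Pool.Agent.RSD.C.C1
import Pool.Agent.RSD.C.C2
import Pool.Agent.RSD.C.C3

set_option autoImplicit false

/-! # [RSD-C12] the volume fraction is the orthant probability -/

open Real MeasureTheory

namespace Pool.Agent.RSD

/-- **[RSD-C12a]** `volFrac n = Fr g`.

Proof. `gauss_cone` with `K = cone n`: `∫_{cone n} exp(-‖x‖²/2) = 4π² volFrac n`.  By `Q_eq`
`exp(-‖x‖²/2) = exp(-Q(w(x))/(2D))` (`D > 0`: `pd_of_gram`), so `change_var` with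
`φ w = exp(-Q g w.2.1 w.2.2 w.1.1 w.1.2/(2D))` gives
`= (1/√D) ∫_{Orth} exp(-Q/(2D)) = 4π² ∫_{Orth} dens`. -/
theorem volFrac_eq_Fr (f : P5) (g : ℝ) (n : Fin 4 → E4) (h : IsGram f g n)
    (hn : LinearIndependent ℝ n) : volFrac n = f.Fr g := by
  have hPD := pd_of_gram f g n h hn
  have hD : 0 < f.D g := hPD.2.2
  have hsD : 0 < √(f.D g) := Real.sqrt_pos.mpr hD
  have hpi : (0 : ℝ) < 4 * π ^ 2 := by positivity
  have hc : ∀ x ∈ cone n, ∀ r : ℝ, 0 < r → r • x ∈ cone n := by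
    intro x hx r hr i
    rw [real_inner_smul_right]
    exact mul_nonneg hr.le (hx i)
  have hG := gauss_cone (cone n) (measurableSet_cone n) hc
  have hV : 4 * π ^ 2 * volFrac n = ∫ x in cone n, Real.exp (-(‖x‖ ^ 2 / 2)) := by
    rw [hG]; rfl
  have hcv := change_var f g n h hn
    (fun w => Real.exp (-(f.Q g w.2.1 w.2.2 w.1.1 w.1.2 / (2 * f.D g))))
  have hint : ∀ x : E4, Real.exp (-(‖x‖ ^ 2 / 2))
      = Real.exp (-(f.Q g (inner ℝ (n 0) x) (inner ℝ (n 1) x) (inner ℝ (n 2) x)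
          (inner ℝ (n 3) x) / (2 * f.D g))) := by
    intro x
    rw [Q_eq f g n h hn x]
    congr 2
    field_simp
  have hVI : 4 * π ^ 2 * volFrac n
      = (1 / √(f.D g)) * ∫ w in P5.Orth, Real.exp (-(f.Q g w.2.1 w.2.2 w.1.1 w.1.2 / (2 * f.D g))) := by
    rw [hV, ← hcv]
    exact integral_congr_ae (Filter.Eventually.of_forall (fun x => hint x))
  have hFr : f.Fr g = (1 / (4 * π ^ 2 * √(f.D g))) *
      ∫ w in P5.Orth, Real.exp (-(f.Q g w.2.1 w.2.2 w.1.1 w.1.2 / (2 * f.D g))) := by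
    unfold P5.Fr
    rw [← integral_const_mul]
    refine integral_congr_ae (Filter.Eventually.of_forall (fun w => ?_))
    simp only [P5.dens]
    ring
  have h2 : volFrac n = (1 / (4 * π ^ 2)) * (4 * π ^ 2 * volFrac n) := by
    field_simp
  rw [h2, hVI, hFr]
  field_simp

/-- **[RSD-C12b]** `0 ≤ Fr ≤ 1` for positive definite data (`exists_gram`; the volume fraction of a
subset of the ball). -/
theorem Fr_mem (f : P5) (g : ℝ) (h : f.PD g) : 0 ≤ f.Fr g ∧ f.Fr g ≤ 1 := by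
  obtain ⟨n, hn, hli⟩ := exists_gram f g h
  rw [← volFrac_eq_Fr f g n hn hli]
  unfold volFrac
  refine ⟨div_nonneg ENNReal.toReal_nonneg ENNReal.toReal_nonneg, ?_⟩
  refine div_le_one_of_le₀ ?_ ENNReal.toReal_nonneg
  refine ENNReal.toReal_mono measure_closedBall_lt_top.ne (measure_mono ?_)
  intro x hx
  rw [mem_closedBall_zero_iff]
  exact hx.1

end Pool.Agent.RSD
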